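import Pool.Agent.Lib.KP.SpecL

/-!
# KP L/BdMax: a boundary peak point
-/

set_option autoImplicit false

open Set Filter Topology Metric

namespace KP

private theorem bm_diff {N : ℕ} (g : MvPolynomial (Fin N) ℂ) :
    Differentiable ℂ (fun z : Cn N => MvPolynomial.eval z g) := by
  induction g using MvPolynomial.induction_on with
  | C a => simp
  | add p q hp hq =>
    simp only [map_add]
    exact hp.add hq
  | mul_X p i hp =>
    simp only [map_mul, MvPolynomial.eval_X]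
    exact hp.mul (by fun_prop)

/-- the translation as a chart -/
private def bm_tr {n : ℕ} (w0 : Cn n) : Chart (univ : Set (Cn n)) n where
  W := univ
  O := univ
  psi := fun w => w + w0
  pi := fun z => z - w0
  hW := isOpen_univ
  hO := isOpen_univ
  hpsi := by
    have : Differentiable ℂ (fun w : Cn n => w + w0) := by fun_prop
    exact this.differentiableOn
  hpi := by
    have : Differentiable ℂ (fun w : Cn n => w - w0) := by fun_prop
    exact this.differentiableOn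
  img := by
    ext z
    simp only [mem_image, mem_inter_iff, mem_univ, true_and, and_self, iff_true]
    exact ⟨z - w0, by simp⟩
  left := fun w _ => by simp

private theorem bm_inj {N n : ℕ} {V : Set (Cn N)} (c : Chart V n) {w : Cn n} (hw : w ∈ c.W)
    (v : Cn n) : fderiv ℂ c.pi (c.psi w) (fderiv ℂ c.psi w v) = v := by
  have hd1 : DifferentiableAt ℂ c.psi w := (c.hpsi w hw).differentiableAt (c.hW.mem_nhds hw)
  have hO : c.psi w ∈ c.O := (c.psi_mem hw).2
  have hd2 : DifferentiableAt ℂ c.pi (c.psi w) := (c.hpi _ hO).differentiableAt (c.hO.mem_nhds hO)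
  have h1 : fderiv ℂ (fun x => c.pi (c.psi x)) w
      = (fderiv ℂ c.pi (c.psi w)).comp (fderiv ℂ c.psi w) := fderiv_comp w hd2 hd1
  have h2 : (fun x => c.pi (c.psi x)) =ᶠ[𝓝 w] id := by
    filter_upwards [c.hW.mem_nhds hw] with x hx
    exact c.left x hx
  rw [h2.fderiv_eq, fderiv_id] at h1
  have h3 := congrArg (fun L : Cn n →L[ℂ] Cn n => L v) h1
  exact h3.symm

theorem tBdMax (h1 : S_PkOf) (h2 : S_LvC) (h3 : S_LvH) (h4 : S_D2A) (h5 : S_D2N) : S_BdMax := by
  intro N n J U hn hU g hsm hne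
  obtain ⟨O, hO, hUO⟩ := hU.opn
  have hUJ : U ⊆ zeroSet J := by rw [hUO]; exact inter_subset_left
  have hgd := bm_diff g
  have hnsq : Continuous (fun z : Cn N => nsq (z - 0)) := by
    unfold nsq
    have := Complex.continuous_normSq
    fun_prop
  -- the maximum
  set Θ : Cn N → ℝ := fun z => ‖MvPolynomial.eval z g‖ ^ 2 * Real.exp (nsq (z - 0)) with hΘ
  have hΘc : Continuous Θ := (hgd.continuous.norm.pow 2).mul hnsq.rexp
  obtain ⟨z1, hz1, hg1⟩ := hne
  have hcpt : IsCompact (closure U) := hU.bdd.isCompact_closure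
  obtain ⟨b, hb, hbmax⟩ := hcpt.exists_isMaxOn ⟨z1, subset_closure hz1⟩ hΘc.continuousOn
  have hΘ1 : 0 < Θ z1 := by
    have : 0 < ‖MvPolynomial.eval z1 g‖ := norm_pos_iff.mpr hg1
    positivity
  have hΘb : Θ z1 ≤ Θ b := hbmax (subset_closure hz1)
  have hgb : MvPolynomial.eval b g ≠ 0 := by
    intro h0
    have : Θ b = 0 := by simp [hΘ, h0]
    linarith
  obtain ⟨hbJ, c0, hbO⟩ := hsm b hb hgb
  obtain ⟨hw0, hpsi0⟩ := c0.right hbJ hbO
  -- the chart
  obtain ⟨c, hcW, hcb⟩ : ∃ c : Chart (zeroSet J) n, (0 : Cn n) ∈ c.W ∧ c.psi 0 = b := by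
    refine ⟨c0.comp (bm_tr (c0.pi b)), ?_, ?_⟩
    · refine ⟨mem_univ _, ?_⟩
      change (0 : Cn n) + c0.pi b ∈ c0.W
      rw [zero_add]
      exact hw0
    · change c0.psi (0 + c0.pi b) = b
      rw [zero_add]
      exact hpsi0
  have hcO : b ∈ c.O := hcb ▸ (c.psi_mem hcW).2
  have hpib : c.pi b = 0 := by rw [← hcb]; exact c.left 0 hcW
  -- the holomorphic function
  set h : Cn n → ℂ := fun w => MvPolynomial.eval (c.psi w) g with hh
  have hhd : DifferentiableOn ℂ h c.W := by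
    have := hgd.comp_differentiableOn c.hpsi
    exact this
  have hh0 : h 0 ≠ 0 := by
    rw [hh]
    simp only
    rw [hcb]
    exact hgb
  obtain ⟨hlog1, hlog2⟩ := (h3 n h 0 c.W c.hW hcW hhd).2 hh0
  obtain ⟨hN1, hN2⟩ := h2 N n c.psi (fun z => nsq (z - 0)) 0 c.W c.hW hcW c.hpsi
    (h5 N 0 (c.psi 0) 0).1
  set Φ : Cn n → ℝ := fun w => nsq (c.psi w - 0) with hΦ
  set Ψ : Cn n → ℝ := fun w => 1 * Φ w + 2 * Real.log ‖h w‖ with hΨ
  have hΨd : ContDiffAt ℝ 2 Ψ 0 := (contDiffAt_const.mul hN1).add (contDiffAt_const.mul hlog1)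
  have hΨL : ∀ v ≠ 0, 0 < Lv Ψ 0 v := by
    intro v hv
    have e1 : Lv Ψ 0 v = 1 * Lv Φ 0 v + 2 * Lv (fun z => Real.log ‖h z‖) 0 v := by
      unfold Lv
      rw [hΨ, h4 n Φ _ 0 hN1 hlog1, h4 n Φ _ 0 hN1 hlog1]
      ring
    rw [e1, hlog2 v, hN2 v]
    set x := fderiv ℂ c.psi 0 v with hx
    have e2 : Lv (fun z : Cn N => nsq (z - 0)) (c.psi 0) x = 4 * nsq x := by
      unfold Lv
      rw [(h5 N 0 (c.psi 0) x).2.1, (h5 N 0 (c.psi 0) (Complex.I • x)).2.1,
        (h5 N 0 (c.psi 0) x).2.2.1]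
      ring
    rw [e2]
    have e3 : x ≠ 0 := by
      intro h0
      have := bm_inj c hcW v
      rw [← hx, h0, map_zero] at this
      exact hv this.symm
    have e4 := (h5 N 0 0 x).2.2.2.1
    have e5 : 0 < ‖x‖ ^ 2 := by
      have := norm_pos_iff.mpr e3
      positivity
    linarith
  -- closure
  have hcl : (0 : Cn n) ∈ closure (c.pre U) := by
    have hne' : NeBot (𝓝[U] b) := mem_closure_iff_nhdsWithin_neBot.mp hb
    have ht : Tendsto c.pi (𝓝[U] b) (𝓝 0) := by
      have : ContinuousAt c.pi b := c.hpi.continuousOn.continuousAt (c.hO.mem_nhds hcO)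
      rw [← hpib]
      exact this.tendsto.mono_left nhdsWithin_le_nhds
    refine mem_closure_of_tendsto ht ?_
    filter_upwards [self_mem_nhdsWithin, mem_nhdsWithin_of_mem_nhds (c.hO.mem_nhds hcO)]
      with u hu hu'
    obtain ⟨e1, e2⟩ := c.right (hUJ hu) hu'
    exact ⟨e1, by rw [e2]; exact hu⟩
  -- maximum in the chart
  have hmax : ∀ᶠ w in 𝓝 (0 : Cn n), w ∈ c.pre U → Ψ w ≤ Ψ 0 := by
    have e1 : ∀ᶠ w in 𝓝 (0 : Cn n), h w ≠ 0 :=
      (hhd.continuousOn.continuousAt (c.hW.mem_nhds hcW)).eventually_ne hh0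
    filter_upwards [e1] with w hw1 hw2
    have e2 : Θ (c.psi w) ≤ Θ (c.psi 0) := by
      rw [hcb]
      exact hbmax (subset_closure hw2.2)
    have e3 : ∀ x, h x ≠ 0 → Real.log (Θ (c.psi x)) = Ψ x := by
      intro x hx
      have e4 : 0 < ‖h x‖ := norm_pos_iff.mpr hx
      have e5 : Θ (c.psi x) = ‖h x‖ ^ 2 * Real.exp (Φ x) := rfl
      rw [e5, Real.log_mul (by positivity) (Real.exp_pos _).ne', Real.log_exp, Real.log_pow]
      rw [hΨ]
      simp only
      push_cast
      ring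
    have hz4 : 0 < Θ (c.psi w) := by
      have e4 : 0 < ‖h w‖ := norm_pos_iff.mpr hw1
      have e5 : Θ (c.psi w) = ‖h w‖ ^ 2 * Real.exp (Φ w) := rfl
      rw [e5]
      positivity
    rw [← e3 w hw1, ← e3 0 hh0]
    exact Real.log_le_log hz4 e2
  have hPk := h1 n (c.pre U) Ψ 0 hn (hU.isOpen_pre c) hΨd hΨL hcl hmax
  exact ⟨c, hcW, fun hc => hPk.1 ⟨hcW, hc⟩, hPk⟩

end KP
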