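import Pool.Agent.Lib.KP.SpecL

/-!
# KP (MP_64edc4_ag), block L, D2A: linearity of the second derivative
-/

set_option autoImplicit false

open Set Filter Topology Metric

namespace KP

namespace D2AAux

theorem ev_diff {n : ℕ} {Φ : Cn n → ℝ} {c : Cn n} (h : ContDiffAt ℝ 2 Φ c) :
    ∀ᶠ x in 𝓝 c, DifferentiableAt ℝ Φ x := by
  have h1 := h.eventually (by norm_num)
  filter_upwards [h1] with x hx
  exact hx.differentiableAt (by norm_num)

theorem diff2 {n : ℕ} {Φ : Cn n → ℝ} {c : Cn n} (h : ContDiffAt ℝ 2 Φ c) :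
    DifferentiableAt ℝ (fderiv ℝ Φ) c := by
  have h1 : ContDiffAt ℝ 1 (fderiv ℝ Φ) c := h.fderiv_right (by norm_num)
  exact h1.differentiableAt (by norm_num)

end D2AAux

open D2AAux

theorem tD2A : S_D2A := by
  intro n Φ Ψ c hΦ hΨ a b v
  unfold D2
  have h1 : fderiv ℝ (fun z => a * Φ z + b * Ψ z) =ᶠ[𝓝 c]
      fun x => a • fderiv ℝ Φ x + b • fderiv ℝ Ψ x := by
    filter_upwards [ev_diff hΦ, ev_diff hΨ] with x hx hy
    exact ((hx.hasFDerivAt.const_mul a).add (hy.hasFDerivAt.const_mul b)).fderiv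
  have h2 : HasFDerivAt (fun x => a • fderiv ℝ Φ x + b • fderiv ℝ Ψ x)
      (a • fderiv ℝ (fderiv ℝ Φ) c + b • fderiv ℝ (fderiv ℝ Ψ) c) c :=
    ((diff2 hΦ).hasFDerivAt.const_smul a).add ((diff2 hΨ).hasFDerivAt.const_smul b)
  rw [h1.fderiv_eq, h2.fderiv]
  simp

end KP
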