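import Pool.Agent.Lib.KP.SpecL

/-!
# KP (MP_64edc4_ag), block L, D2N: the square of the norm
-/

set_option autoImplicit false

open Set Filter Topology Metric

namespace KP

namespace D2NAux

/-- the real part of a coordinate -/
noncomputable def rr {n : ℕ} (i : Fin n) : Cn n →L[ℝ] ℝ :=
  Complex.reCLM.comp (ContinuousLinearMap.proj (R := ℝ) (φ := fun _ : Fin n => ℂ) i)

/-- the imaginary part of a coordinate -/
noncomputable def ii {n : ℕ} (i : Fin n) : Cn n →L[ℝ] ℝ :=
  Complex.imCLM.comp (ContinuousLinearMap.proj (R := ℝ) (φ := fun _ : Fin n => ℂ) i)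

theorem rr_apply {n : ℕ} (i : Fin n) (z : Cn n) : rr i z = (z i).re := rfl

theorem ii_apply {n : ℕ} (i : Fin n) (z : Cn n) : ii i z = (z i).im := rfl

theorem nsq_eq {n : ℕ} (z : Cn n) : nsq z = ∑ i, (rr i z * rr i z + ii i z * ii i z) := by
  unfold nsq
  refine Finset.sum_congr rfl fun i _ => ?_
  rw [Complex.normSq_apply, rr_apply, ii_apply]

/-- the derivative -/
noncomputable def TT (n : ℕ) : Cn n →L[ℝ] Cn n →L[ℝ] ℝ :=
  ∑ i : Fin n, (2 : ℝ) • ((rr i).smulRight (rr i) + (ii i).smulRight (ii i))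

theorem TT_apply {n : ℕ} (z v : Cn n) :
    TT n z v = ∑ i, 2 * (rr i z * rr i v + ii i z * ii i v) := by
  unfold TT
  simp only [ContinuousLinearMap.coe_sum', Finset.sum_apply, ContinuousLinearMap.smul_apply,
    ContinuousLinearMap.add_apply, ContinuousLinearMap.smulRight_apply, smul_eq_mul]

theorem hasF {n : ℕ} (a z : Cn n) : HasFDerivAt (fun z => nsq (z - a)) (TT n (z - a)) z := by
  have h0 : (fun z : Cn n => nsq (z - a)) =
      fun z => ∑ i, (rr i (z - a) * rr i (z - a) + ii i (z - a) * ii i (z - a)) := by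
    funext z
    exact nsq_eq _
  rw [h0]
  have h1 : HasFDerivAt (fun z : Cn n => z - a) (ContinuousLinearMap.id ℝ (Cn n)) z :=
    (hasFDerivAt_id z).sub_const a
  have h2 : ∀ φ : Cn n →L[ℝ] ℝ, HasFDerivAt (fun z => φ (z - a) * φ (z - a))
      (φ (z - a) • φ + φ (z - a) • φ) z := by
    intro φ
    have h3 : HasFDerivAt (fun z => φ (z - a)) φ z := by
      have := φ.hasFDerivAt.comp z h1
      rwa [ContinuousLinearMap.comp_id] at this
    exact h3.mul h3
  have h4 := HasFDerivAt.fun_sum (u := Finset.univ) (fun i _ => (h2 (rr i)).add (h2 (ii i)))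
  refine h4.congr_fderiv ?_
  ext v
  rw [TT_apply]
  simp only [ContinuousLinearMap.coe_sum', Finset.sum_apply, ContinuousLinearMap.smul_apply,
    ContinuousLinearMap.add_apply, smul_eq_mul]
  exact Finset.sum_congr rfl fun i _ => by ring

end D2NAux

open D2NAux

theorem tD2N : S_D2N := by
  intro n a c v
  refine ⟨?_, ?_, ?_, ?_, ?_⟩
  · have h0 : (fun z : Cn n => nsq (z - a)) =
        fun z => ∑ i, (rr i (z - a) * rr i (z - a) + ii i (z - a) * ii i (z - a)) := by
      funext z
      exact nsq_eq _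
    rw [h0]
    have h2 : ∀ φ : Cn n →L[ℝ] ℝ, ContDiff ℝ 2 (fun z : Cn n => φ (z - a)) := fun φ =>
      φ.contDiff.comp (contDiff_id.sub contDiff_const)
    exact (ContDiff.sum fun i _ => ((h2 (rr i)).mul (h2 (rr i))).add
      ((h2 (ii i)).mul (h2 (ii i)))).contDiffAt
  · unfold D2
    have h1 : fderiv ℝ (fun z : Cn n => nsq (z - a)) = fun z => TT n (z - a) := by
      funext z
      exact (hasF a z).fderiv
    have h2 : HasFDerivAt (fun z : Cn n => TT n (z - a)) (TT n) c := by
      have := (TT n).hasFDerivAt.comp c ((hasFDerivAt_id c).sub_const a)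
      exact this
    rw [h1, h2.fderiv, TT_apply, nsq_eq, Finset.mul_sum]
  · unfold nsq
    refine Finset.sum_congr rfl fun i _ => ?_
    rw [Pi.smul_apply, smul_eq_mul, Complex.normSq_mul, Complex.normSq_I, one_mul]
  · have h1 : ∀ i, ‖v i‖ ^ 2 ≤ nsq v := by
      intro i
      rw [← Complex.normSq_eq_norm_sq]
      exact Finset.single_le_sum (f := fun i => Complex.normSq (v i))
        (fun i _ => Complex.normSq_nonneg _) (Finset.mem_univ i)
    have h0 : 0 ≤ nsq v := Finset.sum_nonneg fun i _ => Complex.normSq_nonneg _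
    have h2 : ‖v‖ ≤ Real.sqrt (nsq v) := by
      rw [pi_norm_le_iff_of_nonneg (Real.sqrt_nonneg _)]
      intro i
      exact Real.le_sqrt_of_sq_le (h1 i)
    calc ‖v‖ ^ 2 ≤ Real.sqrt (nsq v) ^ 2 := by gcongr
      _ = nsq v := Real.sq_sqrt h0
  · unfold nsq
    calc ∑ i, Complex.normSq (v i) ≤ ∑ i : Fin n, ‖v‖ ^ 2 := by
          refine Finset.sum_le_sum fun i _ => ?_
          rw [Complex.normSq_eq_norm_sq]
          have := norm_le_pi_norm v i
          gcongr
      _ = n * ‖v‖ ^ 2 := by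
          rw [Finset.sum_const, Finset.card_univ, Fintype.card_fin, nsmul_eq_mul]

end KP
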