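import Pool.Agent.Lib.KP.SpecL

/-!
# KP (MP_64edc4_ag), block L: constant dimension on a connected set
-/

set_option autoImplicit false

open Set Filter Topology Metric

namespace KP

/-- **DimC.** The dimension is constant on a connected set. -/
theorem tDimC (h1 : S_Dim) : S_DimC := by
  intro N d V U hUV hU h
  choose! f hf using h
  have hcont : ContinuousOn f U := by
    intro z hz
    obtain ⟨hzd, hzV, c, hzc⟩ := hf z hz
    have hev : ∀ᶠ x in 𝓝[U] z, f x = f z := by
      filter_upwards [self_mem_nhdsWithin, mem_nhdsWithin_of_mem_nhds (c.hO.mem_nhds hzc)]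
        with x hx hxO
      exact h1 N (f x) (f z) V x (hf x hx).2 ⟨hUV hx, c, hxO⟩
    exact continuousWithinAt_const.congr_of_eventuallyEq hev rfl
  obtain ⟨z0, hz0⟩ := hU.nonempty
  refine ⟨f z0, (hf z0 hz0).1, fun z hz => ?_⟩
  have h2 : f z0 = f z := hU.isPreconnected.constant hcont hz0 hz
  rw [h2]
  exact (hf z hz).2

end KP
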