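import Pool.Agent.Lib.KP.SpecL

/-!
# KP (MP_64edc4_ag), block L: the Levi form of a composition with a holomorphic map
-/

set_option autoImplicit false

open Set Filter Topology Metric

namespace KP

namespace LvCAux

/-- Smoothness over the reals. -/
theorem contDiffAt_real {E F : Type} [NormedAddCommGroup E] [NormedSpace ℂ E]
    [FiniteDimensional ℂ E] [NormedAddCommGroup F] [NormedSpace ℂ F] [CompleteSpace F]
    {ψ : E → F} {w : E} {O : Set E} (hO : IsOpen O) (hw : w ∈ O)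
    (hψ : DifferentiableOn ℂ ψ O) : ContDiffAt ℝ 2 ψ w := by
  have h1 : ContDiffOn ℂ (2 : ℕ) ψ O := Pool.Agent.Lib.Osgood.contDiffOn_nat 2 hO hψ
  have h2 : ContDiffAt ℂ 2 ψ w := by simpa using h1.contDiffAt (hO.mem_nhds hw)
  exact h2.restrict_scalars ℝ

/-- The second real derivative of a holomorphic map. -/
theorem hasFDerivAt_fderiv {E F : Type} [NormedAddCommGroup E] [NormedSpace ℂ E]
    [FiniteDimensional ℂ E] [NormedAddCommGroup F] [NormedSpace ℂ F] [CompleteSpace F]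
    {ψ : E → F} {w : E} {O : Set E} (hO : IsOpen O) (hw : w ∈ O)
    (hψ : DifferentiableOn ℂ ψ O) (u v : E) :
    fderiv ℝ (fderiv ℝ ψ) w u v = fderiv ℂ (fderiv ℂ ψ) w u v := by
  have h1 : fderiv ℝ ψ =ᶠ[𝓝 w]
      fun x => ContinuousLinearMap.restrictScalarsL ℂ E F ℝ ℝ (fderiv ℂ ψ x) := by
    filter_upwards [hO.mem_nhds hw] with x hx
    have h2 : DifferentiableAt ℂ ψ x := (hψ x hx).differentiableAt (hO.mem_nhds hx)
    exact (h2.hasFDerivAt.restrictScalars ℝ).fderiv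
  have h3 : DifferentiableAt ℂ (fderiv ℂ ψ) w :=
    (Pool.Agent.Lib.Osgood.differentiableOn_fderiv hO hψ w hw).differentiableAt (hO.mem_nhds hw)
  have h4 : HasFDerivAt (fderiv ℂ ψ) ((fderiv ℂ (fderiv ℂ ψ) w).restrictScalars ℝ) w :=
    h3.hasFDerivAt.restrictScalars ℝ
  have h5 : HasFDerivAt
      (fun x => ContinuousLinearMap.restrictScalarsL ℂ E F ℝ ℝ (fderiv ℂ ψ x))
      ((ContinuousLinearMap.restrictScalarsL ℂ E F ℝ ℝ).comp
        ((fderiv ℂ (fderiv ℂ ψ) w).restrictScalars ℝ)) w :=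
    (ContinuousLinearMap.restrictScalarsL ℂ E F ℝ ℝ).hasFDerivAt.comp w h4
  rw [h1.fderiv_eq, h5.fderiv]
  rfl

/-- The second derivative of a composition. -/
theorem snd_comp {E F : Type} [NormedAddCommGroup E] [NormedSpace ℂ E]
    [FiniteDimensional ℂ E] [NormedAddCommGroup F] [NormedSpace ℂ F] [CompleteSpace F]
    {ψ : E → F} {w : E} {O : Set E} (hO : IsOpen O) (hw : w ∈ O)
    (hψ : DifferentiableOn ℂ ψ O) {Φ : F → ℝ} (hΦ : ContDiffAt ℝ 2 Φ (ψ w)) (v : E) :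
    fderiv ℝ (fderiv ℝ fun x => Φ (ψ x)) w v v =
      fderiv ℝ (fderiv ℝ Φ) (ψ w) (fderiv ℂ ψ w v) (fderiv ℂ ψ w v) +
        fderiv ℝ Φ (ψ w) (fderiv ℂ (fderiv ℂ ψ) w v v) := by
  have hψr : ContDiffAt ℝ 2 ψ w := contDiffAt_real hO hw hψ
  have hdψ : DifferentiableAt ℝ ψ w := hψr.differentiableAt (by simp)
  have hddψ : DifferentiableAt ℝ (fderiv ℝ ψ) w :=
    (hψr.fderiv_right (m := 1) (by norm_num)).differentiableAt (by simp)
  have hddΦ : DifferentiableAt ℝ (fderiv ℝ Φ) (ψ w) :=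
    (hΦ.fderiv_right (m := 1) (by norm_num)).differentiableAt (by simp)
  have hfd : fderiv ℝ ψ w = (fderiv ℂ ψ w).restrictScalars ℝ := by
    have h2 : DifferentiableAt ℂ ψ w := (hψ w hw).differentiableAt (hO.mem_nhds hw)
    exact (h2.hasFDerivAt.restrictScalars ℝ).fderiv
  have h1 : (fderiv ℝ fun x => Φ (ψ x)) =ᶠ[𝓝 w]
      fun x => (fderiv ℝ Φ (ψ x)).comp (fderiv ℝ ψ x) := by
    have e1 : ∀ᶠ y in 𝓝 (ψ w), ContDiffAt ℝ 2 Φ y := hΦ.eventually (by simp)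
    have e2 : ∀ᶠ x in 𝓝 w, ContDiffAt ℝ 2 Φ (ψ x) := hdψ.continuousAt.eventually e1
    have e3 : ∀ᶠ x in 𝓝 w, ContDiffAt ℝ 2 ψ x := hψr.eventually (by simp)
    filter_upwards [e2, e3] with x hx hx'
    exact ((hx.differentiableAt (by simp)).hasFDerivAt.comp x
      (hx'.differentiableAt (by simp)).hasFDerivAt).fderiv
  have h2 : HasFDerivAt (fun x => fderiv ℝ Φ (ψ x))
      ((fderiv ℝ (fderiv ℝ Φ) (ψ w)).comp (fderiv ℝ ψ w)) w :=
    HasFDerivAt.comp (g := fderiv ℝ Φ) (f := ψ) w hddΦ.hasFDerivAt hdψ.hasFDerivAt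
  have h3 := h2.clm_comp hddψ.hasFDerivAt
  rw [h1.fderiv_eq, h3.fderiv]
  rw [← hasFDerivAt_fderiv hO hw hψ, hfd]
  simp only [_root_.add_apply, ContinuousLinearMap.comp_apply,
    ContinuousLinearMap.compL_apply, ContinuousLinearMap.flip_apply,
    ContinuousLinearMap.coe_restrictScalars']
  rw [add_comm]

end LvCAux

/-- **LvC.** The Levi form of a composition with a holomorphic map. -/
theorem tLvC : S_LvC := by
  intro n m ψ Φ w O hO hw hψ hΦ
  have hψr : ContDiffAt ℝ 2 ψ w := LvCAux.contDiffAt_real hO hw hψ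
  refine ⟨ContDiffAt.comp (g := Φ) (f := ψ) w hΦ hψr, fun v => ?_⟩
  rw [Lv, Lv, D2, D2, D2, D2, LvCAux.snd_comp hO hw hψ hΦ v,
    LvCAux.snd_comp hO hw hψ hΦ (Complex.I • v)]
  have h1 : fderiv ℂ ψ w (Complex.I • v) = Complex.I • fderiv ℂ ψ w v := map_smul _ _ _
  have h2 : fderiv ℂ (fderiv ℂ ψ) w (Complex.I • v) (Complex.I • v) =
      - fderiv ℂ (fderiv ℂ ψ) w v v := by
    rw [map_smul, map_smul, _root_.smul_apply, smul_smul, Complex.I_mul_I, neg_smul,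
      one_smul]
  rw [h1, h2, map_neg]
  ring

end KP
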