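import Pool.Agent.Lib.KP.SpecL

/-!
# KP (MP_64edc4_ag), block L: pluriharmonic functions
-/

set_option autoImplicit false

open Set Filter Topology Metric

namespace KP

namespace LvHAux

/-- Smoothness over the reals. -/
theorem contDiffAt_real {E F : Type} [NormedAddCommGroup E] [NormedSpace ℂ E]
    [FiniteDimensional ℂ E] [NormedAddCommGroup F] [NormedSpace ℂ F] [CompleteSpace F]
    {ψ : E → F} {w : E} {O : Set E} (hO : IsOpen O) (hw : w ∈ O)
    (hψ : DifferentiableOn ℂ ψ O) : ContDiffAt ℝ 2 ψ w := by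
  have h1 : ContDiffOn ℂ (2 : ℕ) ψ O := Pool.Agent.Lib.Osgood.contDiffOn_nat 2 hO hψ
  have h2 : ContDiffAt ℂ 2 ψ w := by simpa using h1.contDiffAt (hO.mem_nhds hw)
  exact h2.restrict_scalars ℝ

/-- The second real derivative of a holomorphic map. -/
theorem hasFDerivAt_fderiv {E F : Type} [NormedAddCommGroup E] [NormedSpace ℂ E]
    [FiniteDimensional ℂ E] [NormedAddCommGroup F] [NormedSpace ℂ F] [CompleteSpace F]
    {ψ : E → F} {w : E} {O : Set E} (hO : IsOpen O) (hw : w ∈ O)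
    (hψ : DifferentiableOn ℂ ψ O) (u v : E) :
    fderiv ℝ (fderiv ℝ ψ) w u v = fderiv ℂ (fderiv ℂ ψ) w u v := by
  have h1 : fderiv ℝ ψ =ᶠ[𝓝 w]
      fun x => ContinuousLinearMap.restrictScalarsL ℂ E F ℝ ℝ (fderiv ℂ ψ x) := by
    filter_upwards [hO.mem_nhds hw] with x hx
    have h2 : DifferentiableAt ℂ ψ x := (hψ x hx).differentiableAt (hO.mem_nhds hx)
    exact (h2.hasFDerivAt.restrictScalars ℝ).fderiv
  have h3 : DifferentiableAt ℂ (fderiv ℂ ψ) w :=
    (Pool.Agent.Lib.Osgood.differentiableOn_fderiv hO hψ w hw).differentiableAt (hO.mem_nhds hw)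
  have h4 : HasFDerivAt (fderiv ℂ ψ) ((fderiv ℂ (fderiv ℂ ψ) w).restrictScalars ℝ) w :=
    h3.hasFDerivAt.restrictScalars ℝ
  have h5 : HasFDerivAt
      (fun x => ContinuousLinearMap.restrictScalarsL ℂ E F ℝ ℝ (fderiv ℂ ψ x))
      ((ContinuousLinearMap.restrictScalarsL ℂ E F ℝ ℝ).comp
        ((fderiv ℂ (fderiv ℂ ψ) w).restrictScalars ℝ)) w :=
    (ContinuousLinearMap.restrictScalarsL ℂ E F ℝ ℝ).hasFDerivAt.comp w h4
  rw [h1.fderiv_eq, h5.fderiv]
  rfl

/-- The second derivative of the real part of a holomorphic function. -/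
theorem snd_re {n : ℕ} {h : Cn n → ℂ} {c : Cn n} {O : Set (Cn n)} (hO : IsOpen O) (hc : c ∈ O)
    (hh : DifferentiableOn ℂ h O) (v : Cn n) :
    D2 (fun z => (h z).re) c v = (fderiv ℂ (fderiv ℂ h) c v v).re := by
  have hψr : ContDiffAt ℝ 2 h c := contDiffAt_real hO hc hh
  have hddψ : DifferentiableAt ℝ (fderiv ℝ h) c :=
    (hψr.fderiv_right (m := 1) (by norm_num)).differentiableAt (by simp)
  have h1 : (fderiv ℝ fun x => (h x).re) =ᶠ[𝓝 c] fun x => Complex.reCLM.comp (fderiv ℝ h x) := by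
    have e3 : ∀ᶠ x in 𝓝 c, ContDiffAt ℝ 2 h x := hψr.eventually (by simp)
    filter_upwards [e3] with x hx'
    exact (Complex.reCLM.hasFDerivAt.comp x
      (hx'.differentiableAt (by simp)).hasFDerivAt).fderiv
  have h3 := (hasFDerivAt_const Complex.reCLM c).clm_comp hddψ.hasFDerivAt
  rw [D2, h1.fderiv_eq, h3.fderiv, ← hasFDerivAt_fderiv hO hc hh]
  simp

theorem part1 {n : ℕ} {h : Cn n → ℂ} {c : Cn n} {O : Set (Cn n)} (hO : IsOpen O) (hc : c ∈ O)
    (hh : DifferentiableOn ℂ h O) :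
    ContDiffAt ℝ 2 (fun z => (h z).re) c ∧ ∀ v, Lv (fun z => (h z).re) c v = 0 := by
  have hψr : ContDiffAt ℝ 2 h c := contDiffAt_real hO hc hh
  refine ⟨Complex.reCLM.contDiff.contDiffAt.comp c hψr, fun v => ?_⟩
  rw [Lv, snd_re hO hc hh, snd_re hO hc hh]
  have h2 : fderiv ℂ (fderiv ℂ h) c (Complex.I • v) (Complex.I • v) =
      - fderiv ℂ (fderiv ℂ h) c v v := by
    rw [map_smul, map_smul, _root_.smul_apply, smul_smul, Complex.I_mul_I, neg_smul,
      one_smul]
  rw [h2, Complex.neg_re]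
  ring

end LvHAux

/-- **LvH.** Pluriharmonic functions. -/
theorem tLvH : S_LvH := by
  intro n h c O hO hc hh
  refine ⟨LvHAux.part1 hO hc hh, fun hne => ?_⟩
  -- the holomorphic logarithm near c
  have hO' : IsOpen (O ∩ (fun z => h z / h c) ⁻¹' Complex.slitPlane) :=
    (hh.continuousOn.div_const (h c)).isOpen_inter_preimage hO Complex.isOpen_slitPlane
  have hcO' : c ∈ O ∩ (fun z => h z / h c) ⁻¹' Complex.slitPlane := by
    refine ⟨hc, ?_⟩
    rw [mem_preimage, div_self hne]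
    exact Complex.one_mem_slitPlane
  have hg : DifferentiableOn ℂ (fun z => Complex.log (h z / h c) + (Real.log ‖h c‖ : ℂ))
      (O ∩ (fun z => h z / h c) ⁻¹' Complex.slitPlane) := by
    intro z hz
    have h1 : DifferentiableAt ℂ h z := (hh z hz.1).differentiableAt (hO.mem_nhds hz.1)
    have h2 : h z / h c ∈ Complex.slitPlane := hz.2
    have h3 : DifferentiableAt ℂ (fun x => h x / h c) z := by
      simpa only [div_eq_mul_inv] using h1.mul_const (h c)⁻¹
    exact ((h3.clog h2).add_const _).differentiableWithinAt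
  have hev : (fun z => Real.log ‖h z‖) =ᶠ[𝓝 c]
      fun z => (Complex.log (h z / h c) + (Real.log ‖h c‖ : ℂ)).re := by
    filter_upwards [hO'.mem_nhds hcO'] with z hz
    have hz0 : h z ≠ 0 := by
      intro h0
      have := hz.2
      rw [mem_preimage, h0, zero_div] at this
      exact Complex.slitPlane_ne_zero this rfl
    rw [Complex.add_re, Complex.log_re, Complex.ofReal_re, norm_div,
      Real.log_div (norm_ne_zero_iff.2 hz0) (norm_ne_zero_iff.2 hne)]
    ring
  obtain ⟨h1, h2⟩ := LvHAux.part1 hO' hcO' hg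
  refine ⟨h1.congr_of_eventuallyEq hev, fun v => ?_⟩
  rw [← h2 v, Lv, Lv, D2, D2, D2, D2, hev.fderiv.fderiv_eq]

end KP
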