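import Pool.Agent.Lib.KP.SpecL

/-!
# KP (MP_64edc4_ag), block L: strict plurisubharmonicity is an open condition
-/

set_option autoImplicit false

open Set Filter Topology Metric

namespace KP

namespace LvOAux

/-- The second derivative as a bilinear map. -/
noncomputable def B {E : Type} [NormedAddCommGroup E] [NormedSpace ℝ E] (Φ : E → ℝ) (z : E) :
    E →L[ℝ] E →L[ℝ] ℝ := fderiv ℝ (fderiv ℝ Φ) z

theorem eventually_B {E : Type} [NormedAddCommGroup E] [NormedSpace ℝ E] (Φ : E → ℝ) (c : E)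
    (hΦ : ContDiffAt ℝ 2 Φ c) {ε : ℝ} (hε : 0 < ε) : ∀ᶠ z in 𝓝 c, ‖B Φ z - B Φ c‖ < ε := by
  have hcB : ContinuousAt (B Φ) c := by
    have e1 : ContDiffAt ℝ 1 (fderiv ℝ Φ) c := hΦ.fderiv_right (m := 1) (by norm_num)
    have e2 : ContDiffAt ℝ 0 (fderiv ℝ (fderiv ℝ Φ)) c := e1.fderiv_right (m := 0) (by norm_num)
    exact e2.continuousAt
  have h2 : ∀ ε > 0, ∀ᶠ z in 𝓝 c, dist (B Φ z) (B Φ c) < ε := Metric.tendsto_nhds.1 hcB
  filter_upwards [h2 ε hε] with z hz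
  have h3 : dist (B Φ z) (B Φ c) = ‖B Φ z - B Φ c‖ := dist_eq_norm (B Φ z) (B Φ c)
  linarith

theorem norm_I_smul {n : ℕ} (v : Cn n) : ‖Complex.I • v‖ = ‖v‖ := by
  rw [norm_smul, Complex.norm_I, one_mul]

theorem Lv_diff {n : ℕ} (Φ : Cn n → ℝ) (z c v : Cn n) :
    |Lv Φ z v - Lv Φ c v| ≤ 2 * ‖B Φ z - B Φ c‖ * ‖v‖ ^ 2 := by
  have key : ∀ u : Cn n, |D2 Φ z u - D2 Φ c u| ≤ ‖B Φ z - B Φ c‖ * ‖u‖ ^ 2 := by
    intro u
    have h1 : D2 Φ z u - D2 Φ c u = (B Φ z - B Φ c) u u := by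
      simp [B, D2]
    rw [h1, ← Real.norm_eq_abs]
    calc ‖(B Φ z - B Φ c) u u‖ ≤ ‖B Φ z - B Φ c‖ * ‖u‖ * ‖u‖ := ContinuousLinearMap.le_opNorm₂ _ _ _
      _ = ‖B Φ z - B Φ c‖ * ‖u‖ ^ 2 := by ring
  have h1 := key v
  have h2 := key (Complex.I • v)
  rw [norm_I_smul] at h2
  have h3 : Lv Φ z v - Lv Φ c v =
      (D2 Φ z v - D2 Φ c v) + (D2 Φ z (Complex.I • v) - D2 Φ c (Complex.I • v)) := by
    rw [Lv, Lv]; ring
  rw [h3]
  calc _ ≤ |D2 Φ z v - D2 Φ c v| + |D2 Φ z (Complex.I • v) - D2 Φ c (Complex.I • v)| :=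
        abs_add_le _ _
    _ ≤ _ := by linarith

theorem Lv_smul {n : ℕ} (Φ : Cn n → ℝ) (c v : Cn n) (t : ℝ) : Lv Φ c (t • v) = t ^ 2 * Lv Φ c v := by
  have h1 : ∀ u : Cn n, D2 Φ c (t • u) = t ^ 2 * D2 Φ c u := by
    intro u
    rw [D2, D2, map_smul, map_smul, _root_.smul_apply, smul_smul, smul_eq_mul]
    ring
  rw [Lv, Lv, h1, smul_comm, h1]
  ring

theorem Lv_lower {n : ℕ} (Φ : Cn n → ℝ) (c : Cn n) (h : ∀ v ≠ 0, 0 < Lv Φ c v) :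
    ∃ μ > 0, ∀ v : Cn n, μ * ‖v‖ ^ 2 ≤ Lv Φ c v := by
  have hcont : Continuous fun v : Cn n => Lv Φ c v := by
    have hB : Continuous fun v : Cn n => B Φ c v v :=
      (B Φ c).continuous.clm_apply continuous_id
    have hB' : Continuous fun v : Cn n => B Φ c (Complex.I • v) (Complex.I • v) :=
      hB.comp (continuous_const_smul Complex.I)
    exact hB.add hB'
  obtain ⟨μ, hμ, hle⟩ := (isCompact_sphere (0 : Cn n) 1).exists_forall_le' (a := 0)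
    hcont.continuousOn (fun v hv => h v (by
      rintro rfl
      simp at hv))
  refine ⟨μ, hμ, fun v => ?_⟩
  rcases eq_or_ne v 0 with rfl | hv
  · simp [Lv, D2]
  have hv' : 0 < ‖v‖ := norm_pos_iff.2 hv
  have h1 : v = ‖v‖ • (‖v‖⁻¹ • v) := by
    rw [smul_smul, mul_inv_cancel₀ hv'.ne', one_smul]
  have h2 := hle (‖v‖⁻¹ • v) (by
    rw [mem_sphere_zero_iff_norm, norm_smul, norm_inv, norm_norm, inv_mul_cancel₀ hv'.ne'])
  rw [h1, Lv_smul, ← h1, mul_comm]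
  gcongr

end LvOAux

/-- **LvO.** Strict plurisubharmonicity is an open condition. -/
theorem tLvO (h1 : S_D2N) : S_LvO := by
  intro n Φ c hΦ hpos
  obtain ⟨μ, hμ, hle⟩ := LvOAux.Lv_lower Φ c hpos
  have hev : ∀ᶠ z in 𝓝 c, ‖LvOAux.B Φ z - LvOAux.B Φ c‖ < μ / 4 :=
    LvOAux.eventually_B Φ c hΦ (by positivity)
  have hev2 : ∀ᶠ z in 𝓝 c, ContDiffAt ℝ 2 Φ z := hΦ.eventually (by simp)
  obtain ⟨r, hr, hball⟩ := Metric.eventually_nhds_iff_ball.1 (hev.and hev2)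
  refine ⟨r, hr, μ / 2 / (n + 1), by positivity, fun z hz => ⟨(hball z hz).2, fun v => ?_⟩⟩
  obtain ⟨-, -, -, -, hn⟩ := h1 n 0 0 v
  have hd := LvOAux.Lv_diff Φ z c v
  have hb := (hball z hz).1
  have h2 := hle v
  have h3 : 2 * ‖LvOAux.B Φ z - LvOAux.B Φ c‖ * ‖v‖ ^ 2 ≤ μ / 2 * ‖v‖ ^ 2 := by
    gcongr
    linarith
  have h4 := (abs_le.1 (hd.trans h3)).1
  have h5 : μ / 2 / (n + 1) * nsq v ≤ μ / 2 * ‖v‖ ^ 2 := by
    have h6 : nsq v ≤ (n + 1) * ‖v‖ ^ 2 := hn.trans (by nlinarith [sq_nonneg ‖v‖])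
    calc μ / 2 / (n + 1) * nsq v ≤ μ / 2 / (n + 1) * ((n + 1) * ‖v‖ ^ 2) := by gcongr
      _ = μ / 2 * ‖v‖ ^ 2 := by field_simp
  linarith

end KP
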