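import Pool.Agent.Lib.KP.SpecL

/-!
# KP (MP_64edc4_ag), block L, NoMax: second order condition at a maximum
-/

set_option autoImplicit false

open Set Filter Topology Metric

namespace KP

theorem tNoMax (h1 : S_Tay) : S_NoMax := by
  intro n Φ c hΦ hmax v
  have hfd : fderiv ℝ Φ c = 0 := hmax.fderiv_eq_zero
  have key : ∀ η > 0, D2 Φ c v ≤ 2 * η * ‖v‖ ^ 2 := by
    intro η hη
    obtain ⟨r, hr, hT⟩ := h1 n Φ c hΦ η hη
    have hc : Continuous (fun t : ℝ => c + t • v) := by fun_prop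
    have ht0 : Tendsto (fun t : ℝ => c + t • v) (𝓝[>] 0) (𝓝 c) := by
      have := hc.tendsto 0
      rw [zero_smul, add_zero] at this
      exact this.mono_left nhdsWithin_le_nhds
    have hc2 : Continuous (fun t : ℝ => ‖t • v‖) := by fun_prop
    have ht1 : ∀ᶠ t : ℝ in 𝓝[>] 0, ‖t • v‖ < r := by
      have := hc2.tendsto 0
      rw [zero_smul, norm_zero] at this
      exact (this.mono_left nhdsWithin_le_nhds).eventually (gt_mem_nhds hr)
    obtain ⟨t, ⟨ht2, ht3⟩, ht4⟩ := ((ht0.eventually hmax).and ht1).and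
      (self_mem_nhdsWithin : Ioi (0 : ℝ) ∈ 𝓝[>] 0) |>.exists
    have ht5 : (0 : ℝ) < t := ht4
    have h2 := hT (t • v) ht3
    rw [hfd] at h2
    have h3 : D2 Φ c (t • v) = t ^ 2 * D2 Φ c v := by
      unfold D2
      rw [map_smul, map_smul, ContinuousLinearMap.smul_apply, smul_eq_mul, smul_eq_mul]
      ring
    have h4 : ‖t • v‖ = t * ‖v‖ := by rw [norm_smul, Real.norm_eq_abs, abs_of_pos ht5]
    rw [h3, h4] at h2
    have h5 := (abs_le.1 h2).1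
    have h6 : Φ (c + t • v) ≤ Φ c := ht2
    have h7 : (0 : Cn n →L[ℝ] ℝ) (t • v) = 0 := rfl
    rw [h7] at h5
    have h8 : t ^ 2 * D2 Φ c v ≤ t ^ 2 * (2 * η * ‖v‖ ^ 2) := by nlinarith
    exact le_of_mul_le_mul_left h8 (by positivity)
  by_contra hc
  rw [not_le] at hc
  have h2 := key (D2 Φ c v / (4 * (‖v‖ ^ 2 + 1))) (by positivity)
  have h3 : 2 * (D2 Φ c v / (4 * (‖v‖ ^ 2 + 1))) * ‖v‖ ^ 2 ≤ D2 Φ c v / 2 := by
    rw [show 2 * (D2 Φ c v / (4 * (‖v‖ ^ 2 + 1))) * ‖v‖ ^ 2 =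
      (D2 Φ c v / 2) * (‖v‖ ^ 2 / (‖v‖ ^ 2 + 1)) by field_simp; ring]
    have h4 : ‖v‖ ^ 2 / (‖v‖ ^ 2 + 1) ≤ 1 := by
      rw [div_le_one (by positivity)]
      linarith
    calc (D2 Φ c v / 2) * (‖v‖ ^ 2 / (‖v‖ ^ 2 + 1)) ≤ (D2 Φ c v / 2) * 1 := by
          gcongr
      _ = D2 Φ c v / 2 := mul_one _
  linarith

end KP
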