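import Pool.Agent.Lib.KP.SpecL

/-!
# KP L/PkC: peak points and coordinate changes
-/

set_option autoImplicit false

open Set Filter Topology Metric

namespace KP

private theorem pkc_le {n : ℕ} (v : Cn n) : nsq v ≤ n * ‖v‖ ^ 2 := by
  unfold nsq
  calc ∑ i, Complex.normSq (v i) ≤ ∑ _i : Fin n, ‖v‖ ^ 2 := by
        refine Finset.sum_le_sum (fun i _ => ?_)
        rw [Complex.normSq_eq_norm_sq]
        exact pow_le_pow_left₀ (norm_nonneg _) (norm_le_pi_norm v i) 2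
    _ = n * ‖v‖ ^ 2 := by simp

private theorem pkc_nonneg {n : ℕ} (z : Cn n) : 0 ≤ nsq z :=
  Finset.sum_nonneg (fun _ _ => Complex.normSq_nonneg _)

private theorem pkc_ge {n : ℕ} (v : Cn n) : ‖v‖ ^ 2 ≤ nsq v := by
  have h0 := pkc_nonneg v
  have h1 : ‖v‖ ≤ Real.sqrt (nsq v) := by
    rw [pi_norm_le_iff_of_nonneg (Real.sqrt_nonneg _)]
    intro i
    apply Real.le_sqrt_of_sq_le
    rw [← Complex.normSq_eq_norm_sq]
    exact Finset.single_le_sum (f := fun i => Complex.normSq (v i))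
      (fun j _ => Complex.normSq_nonneg _) (Finset.mem_univ i)
  calc ‖v‖ ^ 2 ≤ Real.sqrt (nsq v) ^ 2 := pow_le_pow_left₀ (norm_nonneg _) h1 2
    _ = nsq v := Real.sq_sqrt h0

private theorem pkc_inj {N n : ℕ} {V : Set (Cn N)} (c : Chart V n) {w : Cn n} (hw : w ∈ c.W)
    (v : Cn n) : fderiv ℂ c.pi (c.psi w) (fderiv ℂ c.psi w v) = v := by
  have hd1 : DifferentiableAt ℂ c.psi w := (c.hpsi w hw).differentiableAt (c.hW.mem_nhds hw)
  have hO : c.psi w ∈ c.O := (c.psi_mem hw).2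
  have hd2 : DifferentiableAt ℂ c.pi (c.psi w) := (c.hpi _ hO).differentiableAt (c.hO.mem_nhds hO)
  have h1 : fderiv ℂ (fun x => c.pi (c.psi x)) w
      = (fderiv ℂ c.pi (c.psi w)).comp (fderiv ℂ c.psi w) := fderiv_comp w hd2 hd1
  have h2 : (fun x => c.pi (c.psi x)) =ᶠ[𝓝 w] id := by
    filter_upwards [c.hW.mem_nhds hw] with x hx
    exact c.left x hx
  rw [h2.fderiv_eq, fderiv_id] at h1
  have h3 := congrArg (fun L : Cn n →L[ℂ] Cn n => L v) h1
  exact h3.symm

/-- the inverse chart -/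
private def pkc_inv {n : ℕ} (e : Chart (univ : Set (Cn n)) n) : Chart (univ : Set (Cn n)) n where
  W := e.O
  O := e.W
  psi := e.pi
  pi := e.psi
  hW := e.hO
  hO := e.hW
  hpsi := e.hpi
  hpi := e.hpsi
  img := by
    ext w
    constructor
    · rintro ⟨z, hz, rfl⟩
      exact ⟨mem_univ _, (e.right (mem_univ _) hz).1⟩
    · rintro ⟨-, hw⟩
      exact ⟨e.psi w, (e.psi_mem hw).2, e.left w hw⟩
  left := fun z hz => (e.right (mem_univ _) hz).2

private theorem pkc_dir (h1 : S_LvC) {n : ℕ} (A : Set (Cn n)) (e : Chart (univ : Set (Cn n)) n)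
    {w : Cn n} (hw : w ∈ e.W) (hc : e.psi w ∈ Pk A) : w ∈ Pk (e.pre A) := by
  obtain ⟨hcA, hcl, Φ, hΦ, hLv, η, hη, hev⟩ := hc
  have hO : e.psi w ∈ e.O := (e.psi_mem hw).2
  have hpi : e.pi (e.psi w) = w := e.left w hw
  have hd2 : DifferentiableAt ℂ e.pi (e.psi w) := (e.hpi _ hO).differentiableAt (e.hO.mem_nhds hO)
  have hcont : ContinuousAt e.psi w := e.hpsi.continuousOn.continuousAt (e.hW.mem_nhds hw)
  obtain ⟨hN1, hN2⟩ := h1 n n e.psi Φ w e.W e.hW hw e.hpsi hΦ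
  refine ⟨fun h => hcA h.2, ?_, fun x => Φ (e.psi x), hN1, ?_, ?_⟩
  · have hne' : NeBot (𝓝[A] (e.psi w)) := mem_closure_iff_nhdsWithin_neBot.mp hcl
    have ht : Tendsto e.pi (𝓝[A] (e.psi w)) (𝓝 w) := by
      have := hd2.continuousAt.tendsto
      rw [hpi] at this
      exact this.mono_left nhdsWithin_le_nhds
    refine mem_closure_of_tendsto ht ?_
    filter_upwards [self_mem_nhdsWithin, mem_nhdsWithin_of_mem_nhds (e.hO.mem_nhds hO)]
      with u hu hu'
    obtain ⟨e1, e2⟩ := e.right (mem_univ _) hu'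
    exact ⟨e1, by rw [e2]; exact hu⟩
  · intro v hv
    rw [hN2 v]
    apply hLv
    intro h0
    have := pkc_inj e hw v
    rw [h0, map_zero] at this
    exact hv this.symm
  · obtain ⟨C, hC⟩ := hd2.isBigO_sub.bound
    have hCpos : 0 < (n : ℝ) * C ^ 2 + 1 := by positivity
    refine ⟨η / ((n : ℝ) * C ^ 2 + 1), by positivity, ?_⟩
    filter_upwards [hcont.eventually hev, hcont.eventually hC, e.hW.mem_nhds hw]
      with x hx1 hx2 hx3 hx4
    have e1 := hx1 hx4.2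
    rw [e.left x hx3, hpi] at hx2
    have e2 : nsq (x - w) ≤ ((n : ℝ) * C ^ 2 + 1) * nsq (e.psi x - e.psi w) := by
      calc nsq (x - w) ≤ n * ‖x - w‖ ^ 2 := pkc_le _
        _ ≤ n * (C * ‖e.psi x - e.psi w‖) ^ 2 := by
            refine mul_le_mul_of_nonneg_left ?_ (Nat.cast_nonneg n)
            exact pow_le_pow_left₀ (norm_nonneg _) hx2 2
        _ = n * C ^ 2 * ‖e.psi x - e.psi w‖ ^ 2 := by ring
        _ ≤ n * C ^ 2 * nsq (e.psi x - e.psi w) :=
            mul_le_mul_of_nonneg_left (pkc_ge _) (by positivity)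
        _ ≤ ((n : ℝ) * C ^ 2 + 1) * nsq (e.psi x - e.psi w) :=
            mul_le_mul_of_nonneg_right (by linarith) (pkc_nonneg _)
    have e3 : η / ((n : ℝ) * C ^ 2 + 1) * nsq (x - w) ≤ η * nsq (e.psi x - e.psi w) := by
      calc η / ((n : ℝ) * C ^ 2 + 1) * nsq (x - w)
          ≤ η / ((n : ℝ) * C ^ 2 + 1) * (((n : ℝ) * C ^ 2 + 1) * nsq (e.psi x - e.psi w)) :=
            mul_le_mul_of_nonneg_left e2 (by positivity)
        _ = η * nsq (e.psi x - e.psi w) := by field_simp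
    linarith

private theorem pkc_local {n : ℕ} {A B O : Set (Cn n)} (hO : IsOpen O) {c : Cn n} (hc : c ∈ O)
    (hAB : A ∩ O = B ∩ O) (h : c ∈ Pk A) : c ∈ Pk B := by
  obtain ⟨hcA, hcl, Φ, hΦ, hLv, η, hη, hev⟩ := h
  have hiff : ∀ x ∈ O, (x ∈ A ↔ x ∈ B) := by
    intro x hx
    constructor
    · intro h1
      have : x ∈ A ∩ O := ⟨h1, hx⟩
      rw [hAB] at this
      exact this.1
    · intro h1
      have : x ∈ B ∩ O := ⟨h1, hx⟩
      rw [← hAB] at this
      exact this.1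
  refine ⟨fun h1 => hcA ((hiff c hc).mpr h1), ?_, Φ, hΦ, hLv, η, hη, ?_⟩
  · have hne' : NeBot (𝓝[A] c) := mem_closure_iff_nhdsWithin_neBot.mp hcl
    have ht : Tendsto id (𝓝[A] c) (𝓝 c) := nhdsWithin_le_nhds
    refine mem_closure_of_tendsto ht ?_
    filter_upwards [self_mem_nhdsWithin, mem_nhdsWithin_of_mem_nhds (hO.mem_nhds hc)]
      with u hu hu'
    exact (hiff u hu').mp hu
  · filter_upwards [hev, hO.mem_nhds hc] with x hx hx' hx''
    exact hx ((hiff x hx').mpr hx'')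

theorem tPkC (h1 : S_LvC) (h2 : S_LvO) : S_PkC := by
  have _ := h2
  intro n A e hA w hw
  constructor
  · intro h
    have hO : e.psi w ∈ e.O := (e.psi_mem hw).2
    have h3 : (pkc_inv e).psi (e.psi w) ∈ Pk (e.pre A) := by
      change e.pi (e.psi w) ∈ _
      rw [e.left w hw]
      exact h
    have h4 := pkc_dir h1 (e.pre A) (pkc_inv e) (w := e.psi w) hO h3
    refine pkc_local e.hO hO ?_ h4
    ext z
    constructor
    · rintro ⟨⟨-, h5⟩, h6⟩
      have h7 := (e.right (mem_univ _) h6).2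
      have h8 : e.psi (e.pi z) ∈ A := h5.2
      rw [h7] at h8
      exact ⟨h8, h6⟩
    · rintro ⟨h5, h6⟩
      have h7 := e.right (mem_univ _) h6
      refine ⟨⟨h6, h7.1, ?_⟩, h6⟩
      change e.psi (e.pi z) ∈ A
      rw [h7.2]
      exact h5
  · intro h
    exact pkc_dir h1 A e hw h

end KP
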