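import Pool.Agent.Lib.KP.SpecL

set_option autoImplicit false

open Set Filter Topology Metric

namespace KP

theorem tPkOf (h1 : S_NoMax) (h2 : S_LvO) (h3 : S_D2A) (h4 : S_D2N) : S_PkOf := by
  intro n A Ψ c hn hA hΨ hLv hcl hmax
  have hcA : c ∉ A := by
    intro hc
    have hloc : IsLocalMax Ψ c := by
      filter_upwards [hmax, hA.mem_nhds hc] with z hz hzA
      exact hz hzA
    have hv : (fun _ : Fin n => (1 : ℂ)) ≠ 0 := by
      intro h
      have := congrFun h ⟨0, hn⟩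
      simp at this
    have ha := h1 n Ψ c hΨ hloc (fun _ => (1 : ℂ))
    have hb := h1 n Ψ c hΨ hloc (Complex.I • (fun _ : Fin n => (1 : ℂ)))
    have hc := hLv _ hv
    unfold Lv at hc
    linarith
  obtain ⟨r, hr, m, hm, hrm⟩ := h2 n Ψ c hΨ hLv
  have hη : 0 < m / 8 := by positivity
  have hN : ContDiffAt ℝ 2 (fun z : Cn n => nsq (z - c)) c := (h4 n c c 0).1
  have hn0 : nsq (0 : Cn n) = 0 := by simp [nsq]
  refine ⟨hcA, hcl, fun z => 1 * Ψ z + (-(m / 8)) * nsq (z - c), ?_, ?_, m / 8, hη, ?_⟩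
  · exact (contDiffAt_const.mul hΨ).add (contDiffAt_const.mul hN)
  · intro v hv
    have e1 := h3 n Ψ (fun z => nsq (z - c)) c hΨ hN 1 (-(m / 8)) v
    have e2 := h3 n Ψ (fun z => nsq (z - c)) c hΨ hN 1 (-(m / 8)) (Complex.I • v)
    obtain ⟨-, e3, e4, e5, -⟩ := h4 n c c v
    obtain ⟨-, e6, -, -, -⟩ := h4 n c c (Complex.I • v)
    have e7 := (hrm c (mem_ball_self hr)).2 v
    have e8 : 0 < nsq v := lt_of_lt_of_le (by positivity) e5
    unfold Lv at e7 ⊢
    rw [e1, e2, e3, e6, e4]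
    nlinarith
  · filter_upwards [hmax] with z hz hzA
    have := hz hzA
    rw [sub_self, hn0]
    linarith

end KP
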