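import Pool.Agent.Lib.KP.SpecL

set_option autoImplicit false

open Set Filter Topology Metric

namespace KP

theorem tSA : S_SA := by
  intro N U hU
  induction hU with
  | pos p =>
    refine ⟨1, fun _ => p, fun z z' h => ?_⟩
    have h0 := h 0
    simp only [mem_setOf_eq]
    rw [← sign_eq_one_iff, ← sign_eq_one_iff, h0]
  | zero p =>
    refine ⟨1, fun _ => p, fun z z' h => ?_⟩
    have h0 := h 0
    simp only [mem_setOf_eq]
    rw [← sign_eq_zero_iff, ← sign_eq_zero_iff (a := (MvPolynomial.eval (reim z')) p), h0]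
  | compl _ ih =>
    obtain ⟨m, p, hp⟩ := ih
    exact ⟨m, p, fun z z' h => not_congr (hp z z' h)⟩
  | inter _ _ ih1 ih2 =>
    obtain ⟨m, p, hp⟩ := ih1
    obtain ⟨m', p', hp'⟩ := ih2
    refine ⟨m + m', Fin.append p p', fun z z' h => ?_⟩
    refine and_congr (hp z z' fun k => ?_) (hp' z z' fun k => ?_)
    · have := h (Fin.castAdd m' k)
      rwa [Fin.append_left] at this
    · have := h (Fin.natAdd m k)
      rwa [Fin.append_right] at this

end KP
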