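import Pool.Agent.Lib.KP.SpecL

set_option autoImplicit false

open Set Filter Topology Metric

namespace KP

namespace SgUAux

theorem an_poly {N n : ℕ} (c : Cn n → Cn N) (W : Set (Cn n)) (hc : AnalyticOnNhd ℝ c W)
    (p : MvPolynomial (Fin N ⊕ Fin N) ℝ) :
    AnalyticOnNhd ℝ (fun w => MvPolynomial.eval (reim (c w)) p) W := by
  intro w hw
  have hci : ∀ i, AnalyticAt ℝ (fun w => c w i) w := by
    intro i
    exact ((ContinuousLinearMap.proj (R := ℝ) (φ := fun _ : Fin N => ℂ) i).analyticAt _).comp
      (hc w hw)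
  induction p using MvPolynomial.induction_on with
  | C a => simpa using analyticAt_const
  | add p q hp hq =>
    simp only [map_add]
    exact hp.add hq
  | mul_X p i hp =>
    simp only [map_mul, MvPolynomial.eval_X]
    refine hp.mul ?_
    cases i with
    | inl i => exact (Complex.reCLM.analyticAt _).comp (hci i)
    | inr i => exact (Complex.imCLM.analyticAt _).comp (hci i)

end SgUAux

theorem tSgU (h1 : S_SA) : S_SgU := by
  intro N n V U c hU
  obtain ⟨m, p, hp⟩ := h1 N U hU
  refine ⟨m, fun k w => MvPolynomial.eval (reim (c.psi w)) (p k), fun k => ?_, ?_⟩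
  · refine SgUAux.an_poly c.psi c.W ?_ (p k)
    intro w hw
    exact (Pool.Agent.Lib.Osgood.analyticOnNhd c.hW c.hpsi w hw).restrictScalars
  · intro z hz z' hz' h
    have := hp (c.psi z) (c.psi z') h
    exact ⟨fun h2 => ⟨hz', this.1 h2.2⟩, fun h2 => ⟨hz, this.2 h2.2⟩⟩

end KP
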