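import Pool.Agent.Lib.KP.SpecL

/-!
# KP L/VFlat: functions in the ideal vanish on the smooth piece
-/

set_option autoImplicit false

open Set Filter Topology Metric

namespace KP

/-- the differential of a polynomial -/
private noncomputable def vfD {N : ℕ} (p : MvPolynomial (Fin N) ℂ) (z : Cn N) : Cn N →L[ℂ] ℂ :=
  ∑ a, MvPolynomial.eval z (MvPolynomial.pderiv a p) • (ContinuousLinearMap.proj a : Cn N →L[ℂ] ℂ)

private theorem vf_apply {N : ℕ} (p : MvPolynomial (Fin N) ℂ) (z ξ : Cn N) :
    vfD p z ξ = ∑ a, MvPolynomial.eval z (MvPolynomial.pderiv a p) * ξ a := by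
  simp [vfD]

private theorem vf_hasFDerivAt {N : ℕ} (p : MvPolynomial (Fin N) ℂ) (z : Cn N) :
    HasFDerivAt (fun z : Cn N => MvPolynomial.eval z p) (vfD p z) z := by
  induction p using MvPolynomial.induction_on with
  | C c =>
    have h0 : vfD (MvPolynomial.C c) z = 0 := by
      ext ξ
      rw [vf_apply]
      simp
    rw [h0]
    simp only [MvPolynomial.eval_C]
    exact hasFDerivAt_const c z
  | add p q hp hq =>
    have h0 : vfD (p + q) z = vfD p z + vfD q z := by
      ext ξ
      rw [add_apply, vf_apply, vf_apply, vf_apply, ← Finset.sum_add_distrib]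
      refine Finset.sum_congr rfl (fun a _ => ?_)
      rw [map_add, map_add]
      ring
    rw [h0]
    simp only [map_add]
    exact hp.add hq
  | mul_X p i hp =>
    have h1 : HasFDerivAt (fun z : Cn N => z i) (ContinuousLinearMap.proj i : Cn N →L[ℂ] ℂ) z :=
      (ContinuousLinearMap.proj i : Cn N →L[ℂ] ℂ).hasFDerivAt
    have h2 := hp.mul h1
    have h3 : vfD (p * MvPolynomial.X i) z =
        MvPolynomial.eval z p • (ContinuousLinearMap.proj i : Cn N →L[ℂ] ℂ) + z i • vfD p z := by
      have h4 : ∀ a, MvPolynomial.eval z (MvPolynomial.pderiv a (p * MvPolynomial.X i)) =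
          MvPolynomial.eval z p * (if a = i then 1 else 0)
            + z i * MvPolynomial.eval z (MvPolynomial.pderiv a p) := by
        intro a
        rw [Derivation.leibniz, MvPolynomial.pderiv_X]
        simp only [smul_eq_mul, map_add, map_mul, MvPolynomial.eval_X]
        congr 2
        by_cases ha : a = i
        · subst ha; simp
        · rw [if_neg ha, Pi.single_eq_of_ne (Ne.symm ha)]; simp
      ext ξ
      rw [add_apply, smul_apply,
        smul_apply, vf_apply, vf_apply]
      simp only [h4, ContinuousLinearMap.proj_apply, smul_eq_mul, Finset.mul_sum]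
      have h5 : MvPolynomial.eval z p * ξ i
          = ∑ a, MvPolynomial.eval z p * (if a = i then 1 else 0) * ξ a := by
        rw [Finset.sum_eq_single i]
        · simp
        · intro b _ hb
          simp [hb]
        · simp
      rw [h5, ← Finset.sum_add_distrib]
      refine Finset.sum_congr rfl (fun a _ => ?_)
      ring
    simp only [map_mul, MvPolynomial.eval_X]
    rw [h3]
    exact h2

private theorem vf_minor {N r : ℕ} (p : Fin r → MvPolynomial (Fin N) ℂ) (j : Fin r → Fin N)
    (z : Cn N) : MvPolynomial.eval z (minorP p j)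
      = (Matrix.of fun a b => MvPolynomial.eval z (MvPolynomial.pderiv (j b) (p a))).det := by
  unfold minorP
  rw [RingHom.map_det]
  rfl

/-- expansion of the determinant -/
private theorem vf_det {N r : ℕ} (p : Fin r → MvPolynomial (Fin N) ℂ) (j : Fin r → Fin N)
    (f : MvPolynomial (Fin N) ℂ) (z ξ : Cn N) (hp : ∀ i, vfD (p i) z ξ = 0) :
    ∑ a, ξ a * MvPolynomial.eval z (minorP (Matrix.vecCons f p) (Matrix.vecCons a j))
      = MvPolynomial.eval z (minorP p j) * vfD f z ξ := by
  have h1 : ∀ a, MvPolynomial.eval z (minorP (Matrix.vecCons f p) (Matrix.vecCons a j))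
      = ∑ i : Fin (r + 1), (-1) ^ (i : ℕ) *
        MvPolynomial.eval z (MvPolynomial.pderiv a (Matrix.vecCons f p i)) *
        (Matrix.of fun (x : Fin r) (y : Fin r) => MvPolynomial.eval z
          (MvPolynomial.pderiv (j y) (Matrix.vecCons f p (i.succAbove x)))).det := by
    intro a
    rw [vf_minor, Matrix.det_succ_column_zero]
    refine Finset.sum_congr rfl (fun i _ => ?_)
    rfl
  simp only [h1, Finset.mul_sum]
  rw [Finset.sum_comm]
  have h2 : ∀ i : Fin (r + 1), ∑ a, ξ a * ((-1) ^ (i : ℕ) *
        MvPolynomial.eval z (MvPolynomial.pderiv a (Matrix.vecCons f p i)) *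
        (Matrix.of fun (x : Fin r) (y : Fin r) => MvPolynomial.eval z
          (MvPolynomial.pderiv (j y) (Matrix.vecCons f p (i.succAbove x)))).det)
      = (-1) ^ (i : ℕ) * vfD (Matrix.vecCons f p i) z ξ *
        (Matrix.of fun (x : Fin r) (y : Fin r) => MvPolynomial.eval z
          (MvPolynomial.pderiv (j y) (Matrix.vecCons f p (i.succAbove x)))).det := by
    intro i
    rw [vf_apply, Finset.mul_sum, Finset.sum_mul]
    refine Finset.sum_congr rfl (fun a _ => ?_)
    ring
  rw [Finset.sum_congr rfl (fun i _ => h2 i), Fin.sum_univ_succ]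
  have h3 : ∑ i : Fin r, (-1) ^ ((i.succ : Fin (r + 1)) : ℕ) * vfD (Matrix.vecCons f p i.succ) z ξ *
        (Matrix.of fun (x : Fin r) (y : Fin r) => MvPolynomial.eval z
          (MvPolynomial.pderiv (j y) (Matrix.vecCons f p (i.succ.succAbove x)))).det = 0 := by
    refine Finset.sum_eq_zero (fun i _ => ?_)
    rw [Matrix.cons_val_succ, hp i]
    ring
  rw [h3, add_zero, vf_minor]
  simp only [Fin.val_zero, pow_zero, one_mul, Matrix.cons_val_zero, Fin.succAbove_zero,
    Matrix.cons_val_succ]
  ring

theorem tVFlat : S_VFlat := by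
  intro N r m U p j hU c w0 ρ hρ hcW hw0 hne f hf w hw
  set v : Cn m := w - w0 with hv
  set T : Set ℂ := {t : ℂ | w0 + t • v ∈ ball w0 ρ} with hT
  have hTo : IsOpen T := by
    have : Continuous (fun t : ℂ => w0 + t • v) := by fun_prop
    exact isOpen_ball.preimage this
  have hT0 : (0 : ℂ) ∈ T := by
    simp only [hT, mem_ofPred_eq, zero_smul, add_zero]
    exact mem_ball_self hρ
  have hT1 : (1 : ℂ) ∈ T := by
    simp only [hT, mem_ofPred_eq, one_smul, hv, add_sub_cancel]
    rw [← hcW]
    exact hw
  have hTc : Convex ℝ T := by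
    have h1 : T = {t : ℂ | ‖t • v‖ < ρ} := by
      ext t
      simp [hT, mem_ball, dist_eq_norm]
    rw [h1]
    intro x hx y hy a b ha hb hab
    simp only [mem_ofPred_eq] at hx hy ⊢
    rw [norm_smul] at hx hy ⊢
    have h2 : ‖a • x + b • y‖ ≤ a * ‖x‖ + b * ‖y‖ := by
      refine (norm_add_le _ _).trans (le_of_eq ?_)
      rw [norm_smul, norm_smul, Real.norm_of_nonneg ha, Real.norm_of_nonneg hb]
    have h3 : ‖a • x + b • y‖ * ‖v‖ ≤ a * (‖x‖ * ‖v‖) + b * (‖y‖ * ‖v‖) := by
      have := mul_le_mul_of_nonneg_right h2 (norm_nonneg v)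
      linarith
    rcases eq_or_lt_of_le ha with ha0 | ha0
    · have hb1 : b = 1 := by linarith
      rw [← ha0, hb1] at h3 ⊢
      linarith
    · have := mul_lt_mul_of_pos_left hx ha0
      have := mul_le_mul_of_nonneg_left hy.le hb
      have e1 : a * ρ + b * ρ = ρ := by rw [← add_mul, hab, one_mul]
      linarith
  -- the curve
  set γ : ℂ → Cn N := fun t => c.psi (w0 + t • v) with hγ
  have hγd : DifferentiableOn ℂ γ T := by
    have h1 : Differentiable ℂ (fun t : ℂ => w0 + t • v) := by fun_prop
    have h2 := c.hpsi.comp (h1.differentiableOn (s := T)) (fun t ht => by rw [hcW]; exact ht)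
    exact h2
  have hγz : ∀ t ∈ T, γ t ∈ zeroSet (range p) := fun t ht =>
    (c.psi_mem (by rw [hcW]; exact ht)).1
  have hγa : ∀ a, ∀ t ∈ T, AnalyticAt ℂ (fun s => γ s a) t := by
    intro a t ht
    have h1 : DifferentiableOn ℂ (fun s => γ s a) T := by
      intro s hs
      exact (differentiableWithinAt_pi.mp (hγd s hs)) a
    exact h1.analyticAt (hTo.mem_nhds ht)
  set ξ : ℂ → Cn N := fun t a => deriv (fun s => γ s a) t with hξ
  have hξa : ∀ a, ∀ t ∈ T, AnalyticAt ℂ (fun s => ξ s a) t := fun a t ht => (hγa a t ht).deriv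
  have hγD : ∀ t ∈ T, HasDerivAt γ (ξ t) t := by
    intro t ht
    rw [hasDerivAt_pi]
    intro a
    exact (hγa a t ht).differentiableAt.hasDerivAt
  set φ : MvPolynomial (Fin N) ℂ → ℂ → ℂ := fun q t => MvPolynomial.eval (γ t) q with hφ
  have hφD : ∀ q, ∀ t ∈ T, HasDerivAt (φ q) (vfD q (γ t) (ξ t)) t := by
    intro q t ht
    exact (vf_hasFDerivAt q (γ t)).comp_hasDerivAt t (hγD t ht)
  have hφd : ∀ q, DifferentiableOn ℂ (φ q) T := fun q t ht =>
    (hφD q t ht).differentiableAt.differentiableWithinAt
  have hφa : ∀ q, ∀ t ∈ T, AnalyticAt ℂ (φ q) t := fun q t ht =>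
    (hφd q).analyticAt (hTo.mem_nhds ht)
  have hpz : ∀ i, ∀ t ∈ T, vfD (p i) (γ t) (ξ t) = 0 := by
    intro i t ht
    have h1 : φ (p i) =ᶠ[𝓝 t] fun _ => 0 := by
      filter_upwards [hTo.mem_nhds ht] with s hs
      exact hγz s hs _ ⟨i, rfl⟩
    have h2 := (hφD (p i) t ht).deriv
    rw [h1.deriv_eq, deriv_const] at h2
    exact h2.symm
  -- the differential equation
  have hode : ∀ q, ∀ t ∈ T, ∑ a, ξ t a * φ (minorP (Matrix.vecCons q p) (Matrix.vecCons a j)) t
      = φ (minorP p j) t * deriv (φ q) t := by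
    intro q t ht
    rw [(hφD q t ht).deriv]
    exact vf_det p j q (γ t) (ξ t) (fun i => hpz i t ht)
  have hγ0 : γ 0 = c.psi w0 := by simp [hγ]
  have hφ0 : ∀ q ∈ vanI U, φ q 0 = 0 := by
    intro q hq
    simp only [hφ]
    rw [hγ0]
    exact hw0 q hq
  have hg0 : analyticOrderAt (φ (minorP p j)) 0 = 0 := by
    rw [(hφa _ 0 hT0).analyticOrderAt_eq_zero]
    simp only [hφ]
    exact hne _ (by rw [hcW]; exact hT0)
  -- the order is infinite
  have hord : ∀ n : ℕ, ∀ q ∈ vanI U, (n : ℕ∞) ≤ analyticOrderAt (φ q) 0 := by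
    intro n
    induction n with
    | zero => intro q _; simp
    | succ n ih =>
      intro q hq
      rw [Nat.cast_add_one, ← analyticOrderAt_deriv_ge_iff (hφa q 0 hT0) (hφ0 q hq)]
      have h1 : analyticOrderAt (φ (minorP p j) * deriv (φ q)) 0 = analyticOrderAt (deriv (φ q)) 0 := by
        rw [analyticOrderAt_mul (hφa _ 0 hT0) (hφa q 0 hT0).deriv, hg0, zero_add]
      rw [← h1]
      have h2 : (φ (minorP p j) * deriv (φ q)) =ᶠ[𝓝 0] fun t => ∑ a, ξ t a *
          φ (minorP (Matrix.vecCons q p) (Matrix.vecCons a j)) t := by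
        filter_upwards [hTo.mem_nhds hT0] with t ht
        exact (hode q t ht).symm
      rw [analyticOrderAt_congr h2]
      have h3 : ∀ s : Finset (Fin N), (n : ℕ∞) ≤ analyticOrderAt (fun t => ∑ a ∈ s, ξ t a *
          φ (minorP (Matrix.vecCons q p) (Matrix.vecCons a j)) t) 0 := by
        intro s
        induction s using Finset.induction_on with
        | empty =>
          have : analyticOrderAt (fun _ : ℂ => (0 : ℂ)) 0 = ⊤ := by
            rw [analyticOrderAt_eq_top]
            exact Eventually.of_forall (fun _ => rfl)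
          simp only [Finset.sum_empty]
          rw [this]
          exact le_top
        | insert b s hb ihs =>
          have e1 : (fun t => ∑ a ∈ insert b s, ξ t a *
              φ (minorP (Matrix.vecCons q p) (Matrix.vecCons a j)) t)
              = ((fun t => ξ t b) * φ (minorP (Matrix.vecCons q p) (Matrix.vecCons b j)))
                + (fun t => ∑ a ∈ s, ξ t a *
                  φ (minorP (Matrix.vecCons q p) (Matrix.vecCons a j)) t) := by
            funext t
            rw [Finset.sum_insert hb]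
            rfl
          rw [e1]
          refine le_trans (le_min ?_ ihs) le_analyticOrderAt_add
          rw [analyticOrderAt_mul (hξa b 0 hT0) (hφa _ 0 hT0)]
          exact (ih _ (hU q hq b)).trans le_add_self
      exact h3 Finset.univ
  have htop : analyticOrderAt (φ f) 0 = ⊤ := by
    rw [ENat.eq_top_iff_forall_ge]
    intro n
    exact hord n f hf
  rw [analyticOrderAt_eq_top] at htop
  have han : AnalyticOnNhd ℂ (φ f) T := fun t ht => hφa f t ht
  have h1 := han.eqOn_zero_of_preconnected_of_eventuallyEq_zero hTc.isPreconnected hT0 htop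
  have h2 : φ f 1 = 0 := h1 hT1
  have h3 : γ 1 = c.psi w := by simp [hγ, hv]
  rw [← h3]
  exact h2

end KP
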