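import Pool.Agent.Lib.KP.SpecL

/-!
# KP L/VImp: implicit function theorem for a minor
-/

set_option autoImplicit false

open Set Filter Topology Metric

namespace KP

private theorem vi_contDiff {N : ℕ} (g : MvPolynomial (Fin N) ℂ) :
    ContDiff ℂ 1 (fun z : Cn N => MvPolynomial.eval z g) := by
  induction g using MvPolynomial.induction_on with
  | C a =>
    simp only [MvPolynomial.eval_C]
    exact contDiff_const
  | add p q hp hq =>
    simp only [map_add]
    exact hp.add hq
  | mul_X p i hp =>
    simp only [map_mul, MvPolynomial.eval_X]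
    exact hp.mul (contDiff_apply ℂ ℂ i)

/-- the differential of a polynomial -/
private noncomputable def viD {N : ℕ} (p : MvPolynomial (Fin N) ℂ) (z : Cn N) : Cn N →L[ℂ] ℂ :=
  ∑ a, MvPolynomial.eval z (MvPolynomial.pderiv a p) • (ContinuousLinearMap.proj a : Cn N →L[ℂ] ℂ)

private theorem vi_apply {N : ℕ} (p : MvPolynomial (Fin N) ℂ) (z ξ : Cn N) :
    viD p z ξ = ∑ a, MvPolynomial.eval z (MvPolynomial.pderiv a p) * ξ a := by
  simp [viD]

private theorem vi_hasFDerivAt {N : ℕ} (p : MvPolynomial (Fin N) ℂ) (z : Cn N) :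
    HasFDerivAt (fun z : Cn N => MvPolynomial.eval z p) (viD p z) z := by
  induction p using MvPolynomial.induction_on with
  | C c =>
    have h0 : viD (MvPolynomial.C c) z = 0 := by
      ext ξ
      rw [vi_apply]
      simp
    rw [h0]
    simp only [MvPolynomial.eval_C]
    exact hasFDerivAt_const c z
  | add p q hp hq =>
    have h0 : viD (p + q) z = viD p z + viD q z := by
      ext ξ
      rw [add_apply, vi_apply, vi_apply, vi_apply, ← Finset.sum_add_distrib]
      refine Finset.sum_congr rfl (fun a _ => ?_)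
      rw [map_add, map_add]
      ring
    rw [h0]
    simp only [map_add]
    exact hp.add hq
  | mul_X p i hp =>
    have h1 : HasFDerivAt (fun z : Cn N => z i) (ContinuousLinearMap.proj i : Cn N →L[ℂ] ℂ) z :=
      (ContinuousLinearMap.proj i : Cn N →L[ℂ] ℂ).hasFDerivAt
    have h2 := hp.mul h1
    have h3 : viD (p * MvPolynomial.X i) z =
        MvPolynomial.eval z p • (ContinuousLinearMap.proj i : Cn N →L[ℂ] ℂ) + z i • viD p z := by
      have h4 : ∀ a, MvPolynomial.eval z (MvPolynomial.pderiv a (p * MvPolynomial.X i)) =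
          MvPolynomial.eval z p * (if a = i then 1 else 0)
            + z i * MvPolynomial.eval z (MvPolynomial.pderiv a p) := by
        intro a
        rw [Derivation.leibniz, MvPolynomial.pderiv_X]
        simp only [smul_eq_mul, map_add, map_mul, MvPolynomial.eval_X]
        congr 2
        by_cases ha : a = i
        · subst ha; simp
        · rw [if_neg ha, Pi.single_eq_of_ne (Ne.symm ha)]; simp
      ext ξ
      rw [add_apply, smul_apply,
        smul_apply, vi_apply, vi_apply]
      simp only [h4, ContinuousLinearMap.proj_apply, smul_eq_mul, Finset.mul_sum]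
      have h5 : MvPolynomial.eval z p * ξ i
          = ∑ a, MvPolynomial.eval z p * (if a = i then 1 else 0) * ξ a := by
        rw [Finset.sum_eq_single i]
        · simp
        · intro b _ hb
          simp [hb]
        · simp
      rw [h5, ← Finset.sum_add_distrib]
      refine Finset.sum_congr rfl (fun a _ => ?_)
      ring
    simp only [map_mul, MvPolynomial.eval_X]
    rw [h3]
    exact h2

private theorem vi_minor {N r : ℕ} (p : Fin r → MvPolynomial (Fin N) ℂ) (j : Fin r → Fin N)
    (z : Cn N) : MvPolynomial.eval z (minorP p j)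
      = (Matrix.of fun a b => MvPolynomial.eval z (MvPolynomial.pderiv (j b) (p a))).det := by
  unfold minorP
  rw [RingHom.map_det]
  rfl

/-- enumeration of the complement of the range -/
private theorem vi_compl {N r : ℕ} (j : Fin r → Fin N) (hj : Function.Injective j) :
    ∃ κ : Fin (N - r) → Fin N, ∀ a, (∃ i, κ i = a) ∨ (∃ b, j b = a) := by
  classical
  set s : Finset (Fin N) := (Finset.univ.image j)ᶜ with hs
  have hcard : s.card = N - r := by
    rw [hs, Finset.card_compl, Finset.card_image_of_injective _ hj]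
    simp
  refine ⟨fun i => s.orderEmbOfFin hcard i, fun a => ?_⟩
  by_cases ha : a ∈ s
  · left
    have : a ∈ Set.range (s.orderEmbOfFin hcard) := by
      rw [Finset.range_orderEmbOfFin]
      exact ha
    exact this
  · right
    rw [hs, Finset.mem_compl, not_not, Finset.mem_image] at ha
    obtain ⟨b, -, hb⟩ := ha
    exact ⟨b, hb⟩

theorem tVImp : S_VImp := by
  intro N r p j z0 hz0 hmin
  have hj : Function.Injective j := by
    intro a b hab
    by_contra hne
    apply hmin
    rw [vi_minor]
    refine Matrix.det_zero_of_column_eq hne (fun k => ?_)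
    simp only [Matrix.of_apply]
    rw [hab]
  have hrN : r ≤ N := by
    have := Fintype.card_le_of_injective j hj
    simpa using this
  obtain ⟨κ, hκ⟩ := vi_compl j hj
  -- the map
  set Φ : Cn N → Cn (N - r) × Cn r :=
    fun z => (fun i => z (κ i), fun i => MvPolynomial.eval z (p i)) with hΦ
  have hΦc : ContDiff ℂ 1 Φ := by
    refine ContDiff.prodMk ?_ ?_
    · exact contDiff_pi.mpr (fun i => contDiff_apply ℂ ℂ (κ i))
    · exact contDiff_pi.mpr (fun i => vi_contDiff (p i))
  set L : Cn N →L[ℂ] Cn (N - r) × Cn r :=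
    (ContinuousLinearMap.pi (fun i => (ContinuousLinearMap.proj (κ i) : Cn N →L[ℂ] ℂ))).prod
      (ContinuousLinearMap.pi (fun i => viD (p i) z0)) with hL
  have hΦd : HasFDerivAt Φ L z0 := by
    refine HasFDerivAt.prodMk ?_ ?_
    · exact hasFDerivAt_pi.mpr (fun i =>
        (ContinuousLinearMap.proj (κ i) : Cn N →L[ℂ] ℂ).hasFDerivAt)
    · exact hasFDerivAt_pi.mpr (fun i => vi_hasFDerivAt (p i) z0)
  have hLinj : Function.Injective L := by
    rw [injective_iff_map_eq_zero]
    intro ξ hξ
    have h1 : ∀ i, ξ (κ i) = 0 := by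
      intro i
      have := congrArg Prod.fst hξ
      exact congrFun this i
    have h2 : ∀ i, ∑ a, MvPolynomial.eval z0 (MvPolynomial.pderiv a (p i)) * ξ a = 0 := by
      intro i
      have h3 := congrFun (congrArg Prod.snd hξ) i
      have h4 : (L ξ).2 i = ∑ a, MvPolynomial.eval z0 (MvPolynomial.pderiv a (p i)) * ξ a :=
        vi_apply (p i) z0 ξ
      rw [← h4]
      exact h3
    have h3 : (Matrix.of fun a b => MvPolynomial.eval z0 (MvPolynomial.pderiv (j b) (p a))).mulVec
        (fun b => ξ (j b)) = 0 := by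
      funext i
      have h4 := h2 i
      classical
      have h5 : ∑ a, MvPolynomial.eval z0 (MvPolynomial.pderiv a (p i)) * ξ a
          = ∑ a ∈ Finset.univ.image j, MvPolynomial.eval z0 (MvPolynomial.pderiv a (p i)) * ξ a := by
        symm
        apply Finset.sum_subset (Finset.subset_univ _)
        intro a _ ha
        rcases hκ a with ⟨i', hi'⟩ | ⟨b, hb⟩
        · rw [← hi', h1 i', mul_zero]
        · exact (ha (Finset.mem_image.mpr ⟨b, Finset.mem_univ _, hb⟩)).elim
      rw [h5, Finset.sum_image (fun x _ y _ h => hj h)] at h4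
      exact h4
    have h4 : (fun b => ξ (j b)) = 0 := by
      apply Matrix.eq_zero_of_mulVec_eq_zero _ h3
      rw [← vi_minor]
      exact hmin
    funext a
    rcases hκ a with ⟨i', hi'⟩ | ⟨b, hb⟩
    · rw [← hi', h1 i']; rfl
    · rw [← hb]; exact congrFun h4 b
  have hfr : Module.finrank ℂ (Cn N) = Module.finrank ℂ (Cn (N - r) × Cn r) := by
    rw [Module.finrank_prod, Module.finrank_fin_fun, Module.finrank_fin_fun,
      Module.finrank_fin_fun]
    omega
  have hLsurj : Function.Surjective L := by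
    have := (LinearMap.injective_iff_surjective_of_finrank_eq_finrank
      (f := (L : Cn N →ₗ[ℂ] Cn (N - r) × Cn r)) hfr).mp hLinj
    exact this
  set L' : Cn N ≃L[ℂ] Cn (N - r) × Cn r := ContinuousLinearEquiv.ofBijective L
    (LinearMap.ker_eq_bot.mpr hLinj) (LinearMap.range_eq_top.mpr hLsurj) with hL'
  have hL'L : (L' : Cn N →L[ℂ] Cn (N - r) × Cn r) = L :=
    ContinuousLinearEquiv.coe_ofBijective _ _ _
  have hΦd' : HasFDerivAt Φ (L' : Cn N →L[ℂ] Cn (N - r) × Cn r) z0 := by
    rw [hL'L]; exact hΦd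
  have hcd : ContDiffAt ℂ 1 Φ z0 := hΦc.contDiffAt
  have h10 : (1 : WithTop ℕ∞) ≠ 0 := one_ne_zero
  set E := hcd.toOpenPartialHomeomorph Φ hΦd' h10 with hE
  have hEcoe : ∀ z, E z = Φ z := fun z => rfl
  have hz0S : z0 ∈ E.source := hcd.mem_toOpenPartialHomeomorph_source hΦd' h10
  have hz0T : Φ z0 ∈ E.target := hcd.image_mem_toOpenPartialHomeomorph_target hΦd' h10
  have hinv : ContDiffAt ℂ 1 E.symm (Φ z0) := hcd.to_localInverse hΦd' h10
  have hEz0 : E.symm (Φ z0) = z0 := E.left_inv hz0S
  -- the radius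
  have hev : ∀ᶠ y in 𝓝 (Φ z0), y ∈ E.target ∧ DifferentiableAt ℂ E.symm y ∧
      MvPolynomial.eval (E.symm y) (minorP p j) ≠ 0 := by
    have e1 : ∀ᶠ y in 𝓝 (Φ z0), y ∈ E.target := E.open_target.mem_nhds hz0T
    have e2 : ∀ᶠ y in 𝓝 (Φ z0), ContDiffAt ℂ 1 E.symm y := hinv.eventually (by simp)
    have e3 : ∀ᶠ y in 𝓝 (Φ z0), MvPolynomial.eval (E.symm y) (minorP p j) ≠ 0 := by
      have e4 : ContinuousAt (fun y => MvPolynomial.eval (E.symm y) (minorP p j)) (Φ z0) :=
        (vi_contDiff (minorP p j)).continuous.continuousAt.comp hinv.continuousAt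
      apply e4.eventually_ne
      rw [hEz0]
      exact hmin
    filter_upwards [e1, e2, e3] with y h1 h2 h3
    exact ⟨h1, h2.differentiableAt one_ne_zero, h3⟩
  obtain ⟨ρ, hρ, hρ'⟩ := Metric.eventually_nhds_iff_ball.mp hev
  set w0 : Cn (N - r) := fun i => z0 (κ i) with hw0
  have hΦz0 : Φ z0 = (w0, 0) := by
    rw [hΦ]
    simp only
    rw [Prod.mk.injEq]
    exact ⟨rfl, funext hz0⟩
  have hball : ∀ w ∈ ball w0 ρ, ((w, 0) : Cn (N - r) × Cn r) ∈ ball (Φ z0) ρ := by
    intro w hw
    rw [hΦz0, mem_ball, Prod.dist_eq]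
    simp only [dist_self]
    rw [max_lt_iff]
    exact ⟨hw, hρ⟩
  have hball' : ∀ z, Φ z ∈ ball (Φ z0) ρ → (fun i => z (κ i)) ∈ ball w0 ρ := by
    intro z hz
    rw [hΦz0, mem_ball, Prod.dist_eq, max_lt_iff] at hz
    exact hz.1
  have hinc : Differentiable ℂ (fun w : Cn (N - r) => ((w, 0) : Cn (N - r) × Cn r)) := by
    fun_prop
  refine ⟨⟨ball w0 ρ, E.source ∩ Φ ⁻¹' (ball (Φ z0) ρ), fun w => E.symm (w, 0),
    fun z => fun i => z (κ i), isOpen_ball, E.open_source.inter (hΦc.continuous.isOpen_preimage _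
      isOpen_ball), ?_, ?_, ?_, ?_⟩, w0, ρ, hρ, ⟨hz0S, mem_ball_self hρ⟩, rfl, ?_, ?_⟩
  · intro w hw
    have e1 := (hρ' _ (hball w hw)).2.1
    exact (e1.comp w (hinc w)).differentiableWithinAt
  · have : Differentiable ℂ (fun z : Cn N => fun i => z (κ i)) := by fun_prop
    exact this.differentiableOn
  · ext z
    constructor
    · rintro ⟨w, hw, rfl⟩
      have e1 := hρ' _ (hball w hw)
      have e2 : Φ (E.symm (w, 0)) = (w, 0) := E.right_inv e1.1
      refine ⟨?_, E.map_target e1.1, ?_⟩
      · rintro _ ⟨i, rfl⟩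
        exact congrFun (congrArg Prod.snd e2) i
      · rw [mem_preimage, e2]
        exact hball w hw
    · rintro ⟨hz, hzS, hz'⟩
      have e1 : Φ z = ((fun i => z (κ i)), 0) := by
        rw [hΦ]
        simp only
        rw [Prod.mk.injEq]
        exact ⟨rfl, funext (fun i => hz _ ⟨i, rfl⟩)⟩
      refine ⟨fun i => z (κ i), hball' z hz', ?_⟩
      simp only
      rw [← e1]
      exact E.left_inv hzS
  · intro w hw
    have e1 := hρ' _ (hball w hw)
    have e2 : Φ (E.symm (w, 0)) = (w, 0) := E.right_inv e1.1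
    exact congrArg Prod.fst e2
  · simp only
    rw [← hΦz0]
    exact hEz0
  · intro w hw
    exact (hρ' _ (hball w hw)).2.2

end KP
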