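import Pool.Agent.Lib.KP.SpecL

/-!
# KP (MP_64edc4_ag), block L: maximal rank of the Jacobian
-/

set_option autoImplicit false

open Set Filter Topology Metric

namespace KP

namespace VRankAux

/-- There is a minor of size `r` which is not zero on `U`. -/
def P {N : ℕ} (U : Set (Cn N)) (r : ℕ) : Prop :=
  ∃ (p : Fin r → MvPolynomial (Fin N) ℂ) (j : Fin r → Fin N), (∀ i, p i ∈ vanI U) ∧
    ∃ z ∈ U, MvPolynomial.eval z (minorP p j) ≠ 0

theorem P_zero {N : ℕ} {U : Set (Cn N)} (hU : U.Nonempty) : P U 0 := by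
  obtain ⟨z, hz⟩ := hU
  refine ⟨Fin.elim0, Fin.elim0, fun i => i.elim0, z, hz, ?_⟩
  have : minorP (N := N) (r := 0) Fin.elim0 Fin.elim0 = 1 := by
    rw [minorP]; exact Matrix.det_isEmpty
  rw [this]
  simp

theorem not_P {N : ℕ} {U : Set (Cn N)} : ¬ P U (N + 1) := by
  rintro ⟨p, j, -, z, -, hne⟩
  have hj : ¬ Function.Injective j := by
    intro hj
    have := Fintype.card_le_of_injective j hj
    simp at this
  simp only [Function.Injective, not_forall] at hj
  obtain ⟨a, b, hab, hne'⟩ := hj
  apply hne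
  have : minorP p j = 0 := by
    rw [minorP]
    apply Matrix.det_zero_of_column_eq hne'
    intro k
    simp [hab]
  rw [this, map_zero]

end VRankAux

/-- **VRank.** Maximal rank of the Jacobian. -/
theorem tVRank : S_VRank := by
  intro N U hU
  obtain ⟨r, hr, hr'⟩ : ∃ r, VRankAux.P U r ∧ ¬ VRankAux.P U (r + 1) := by
    by_contra hcon
    have hall : ∀ r, VRankAux.P U r := by
      intro r
      induction r with
      | zero => exact VRankAux.P_zero hU
      | succ r ih =>
        by_contra h
        exact hcon ⟨r, ih, h⟩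
    exact VRankAux.not_P (hall (N + 1))
  obtain ⟨p, j, hp, hz⟩ := hr
  refine ⟨r, p, j, hp, hz, fun f hf a z hzU => ?_⟩
  by_contra hne
  refine hr' ⟨Matrix.vecCons f p, Matrix.vecCons a j, ?_, z, hzU, hne⟩
  intro i
  refine Fin.cases ?_ (fun i => ?_) i
  · simpa using hf
  · simpa using hp i

end KP
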