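import Pool.Agent.Lib.KP.SpecL

/-!
# KP L/VSing: the Zariski closure of `U` is smooth off a hypersurface
-/

set_option autoImplicit false

open Set Filter Topology Metric

namespace KP

private theorem vs_sub {N : ℕ} (U : Set (Cn N)) : U ⊆ zeroSet (vanI U) :=
  fun z hz _ hf => hf z hz

theorem tVSing (h1 : S_VRank) (h2 : S_VImp) (h3 : S_VFlat) (h4 : S_Dim) : S_VSing := by
  intro N n I U hU
  obtain ⟨r, p, j, hp, ⟨z1, hz1, hg1⟩, hmin⟩ := h1 N U hU.conn.nonempty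
  obtain ⟨O, hO, hUO⟩ := hU.opn
  have hUI : U ⊆ zeroSet I := by rw [hUO]; exact inter_subset_left
  have hJI : zeroSet (vanI U) ⊆ zeroSet I := by
    intro z hz f hf
    exact hz f (fun x hx => hUI hx f hf)
  have hUJ : U = zeroSet (vanI U) ∩ O := by
    apply Subset.antisymm
    · intro z hz
      refine ⟨vs_sub U hz, ?_⟩
      rw [hUO] at hz
      exact hz.2
    · rintro z ⟨hz, hz'⟩
      rw [hUO]
      exact ⟨hJI hz, hz'⟩
  have hsm : ∀ z ∈ U, SmoothAt (zeroSet (vanI U)) n z := by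
    intro z hz
    obtain ⟨-, c, hc⟩ := hU.smooth z hz
    refine ⟨vs_sub U hz, ?_⟩
    have himg : c.psi '' (c.W ∩ c.psi ⁻¹' O) = zeroSet (vanI U) ∩ (c.O ∩ O) := by
      apply Subset.antisymm
      · rintro _ ⟨w, ⟨hw, hw'⟩, rfl⟩
        have h5 := c.psi_mem hw
        have h6 : c.psi w ∈ U := by rw [hUO]; exact ⟨h5.1, hw'⟩
        exact ⟨vs_sub U h6, h5.2, hw'⟩
      · rintro x ⟨hx, hx1, hx2⟩
        obtain ⟨h5, h6⟩ := c.right (hJI hx) hx1
        refine ⟨c.pi x, ⟨h5, ?_⟩, h6⟩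
        rw [mem_preimage, h6]
        exact hx2
    refine ⟨⟨c.W ∩ c.psi ⁻¹' O, c.O ∩ O, c.psi, c.pi,
      c.hpsi.continuousOn.isOpen_inter_preimage c.hW hO, c.hO.inter hO,
      c.hpsi.mono inter_subset_left, c.hpi.mono inter_subset_left, himg,
      fun w hw => c.left w hw.1⟩, hc, ?_⟩
    rw [hUO] at hz
    exact hz.2
  have key : ∀ z0 ∈ zeroSet (vanI U), MvPolynomial.eval z0 (minorP p j) ≠ 0 →
      SmoothAt (zeroSet (vanI U)) (N - r) z0 := by
    intro z0 hz0 hg0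
    obtain ⟨c, w0, ρ, hρ, hz0O, hcW, hpsi, hne⟩ := h2 N r p j z0 (fun i => hz0 _ (hp i)) hg0
    have hfl := h3 N r (N - r) U p j hmin c w0 ρ hρ hcW (by rw [hpsi]; exact hz0) hne
    refine ⟨hz0, ?_⟩
    have himg : c.psi '' c.W = zeroSet (vanI U) ∩ c.O := by
      apply Subset.antisymm
      · rintro _ ⟨w, hw, rfl⟩
        exact ⟨fun f hf => hfl f hf w hw, (c.psi_mem hw).2⟩
      · rintro x ⟨hx, hx1⟩
        have hx2 : x ∈ zeroSet (range p) := by
          rintro _ ⟨i, rfl⟩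
          exact hx _ (hp i)
        obtain ⟨h5, h6⟩ := c.right hx2 hx1
        exact ⟨c.pi x, h5, h6⟩
    exact ⟨⟨c.W, c.O, c.psi, c.pi, c.hW, c.hO, c.hpsi, c.hpi, himg, c.left⟩, hz0O⟩
  have hn : n = N - r :=
    h4 N n (N - r) (zeroSet (vanI U)) z1 (hsm z1 hz1) (key z1 (vs_sub U hz1) hg1)
  refine ⟨vanI U, ⟨⟨O, hO, hUJ⟩, hsm, hU.conn, hU.bdd⟩, minorP p j, ?_, z1, hz1, hg1⟩
  intro z hz hg
  have hz0 : z ∈ zeroSet (vanI U) := closure_minimal (vs_sub U) (isClosed_zeroSet _) hz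
  rw [hn]
  exact key z hz0 hg

end KP
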