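import Pool.Agent.Lib.KP.SpecL

/-!
# KP (MP_64edc4_ag), block L: invariance of the dimension
-/

set_option autoImplicit false

open Set Filter Topology Metric

namespace KP

namespace DimAux

theorem le_of_charts {N n m : ℕ} {V : Set (Cn N)} (c : Chart V n) (c' : Chart V m) {z : Cn N}
    (hV : z ∈ V) (hz : z ∈ c.O) (hz' : z ∈ c'.O) : n ≤ m := by
  obtain ⟨hw, hpw⟩ := c.right hV hz
  obtain ⟨hw', hpw'⟩ := c'.right hV hz'
  have hpsi : DifferentiableAt ℂ c.psi (c.pi z) := (c.hpsi _ hw).differentiableAt (c.hW.mem_nhds hw)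
  have hpi' : DifferentiableAt ℂ c'.pi z := (c'.hpi _ hz').differentiableAt (c'.hO.mem_nhds hz')
  have hpsi' : DifferentiableAt ℂ c'.psi (c'.pi z) :=
    (c'.hpsi _ hw').differentiableAt (c'.hW.mem_nhds hw')
  have hpi : DifferentiableAt ℂ c.pi z := (c.hpi _ hz).differentiableAt (c.hO.mem_nhds hz)
  have ha : DifferentiableAt ℂ (fun x => c'.pi (c.psi x)) (c.pi z) := by
    refine DifferentiableAt.comp (g := c'.pi) (f := c.psi) _ ?_ hpsi
    rw [hpw]; exact hpi'
  have hb : DifferentiableAt ℂ (fun y => c.pi (c'.psi y)) (c'.pi (c.psi (c.pi z))) := by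
    rw [hpw]
    refine DifferentiableAt.comp (g := c.pi) (f := c'.psi) _ ?_ hpsi'
    rw [hpw']; exact hpi
  have hba : (fun x => c.pi (c'.psi (c'.pi (c.psi x)))) =ᶠ[𝓝 (c.pi z)] fun x => x := by
    have h1 : ∀ᶠ x in 𝓝 (c.pi z), c.psi x ∈ c'.O := by
      refine hpsi.continuousAt.eventually_mem ?_
      rw [hpw]; exact c'.hO.mem_nhds hz'
    filter_upwards [c.hW.mem_nhds hw, h1] with x hx hx'
    have h2 := c.psi_mem hx
    rw [(c'.right h2.1 hx').2, c.left x hx]
  have hcomp : HasFDerivAt (fun x => c.pi (c'.psi (c'.pi (c.psi x))))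
      ((fderiv ℂ (fun y => c.pi (c'.psi y)) (c'.pi (c.psi (c.pi z)))).comp
        (fderiv ℂ (fun x => c'.pi (c.psi x)) (c.pi z))) (c.pi z) :=
    HasFDerivAt.comp (g := fun y => c.pi (c'.psi y)) (f := fun x => c'.pi (c.psi x)) (c.pi z)
      hb.hasFDerivAt ha.hasFDerivAt
  have hid : HasFDerivAt (fun x : Cn n => x) (ContinuousLinearMap.id ℂ (Cn n)) (c.pi z) :=
    hasFDerivAt_id _
  have heq := (hcomp.congr_of_eventuallyEq hba.symm).unique hid
  have hinj : Function.Injective (fderiv ℂ (fun x => c'.pi (c.psi x)) (c.pi z)) := by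
    intro u v huv
    have h1 := congrArg (fun L => L u) heq
    have h2 := congrArg (fun L => L v) heq
    simp only [ContinuousLinearMap.comp_apply, ContinuousLinearMap.id_apply] at h1 h2
    rw [← h1, ← h2, huv]
  have h3 := LinearMap.finrank_le_finrank_of_injective
    (f := (fderiv ℂ (fun x => c'.pi (c.psi x)) (c.pi z)).toLinearMap) hinj
  simpa using h3

end DimAux

/-- **Dim.** Invariance of the dimension. -/
theorem tDim : S_Dim := by
  rintro N n m V z ⟨hV, c, hc⟩ ⟨-, c', hc'⟩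
  exact le_antisymm (DimAux.le_of_charts c c' hV hc hc') (DimAux.le_of_charts c' c hV hc' hc)

end KP
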