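import Pool.Agent.Lib.KP.SpecL

/-!
# KP L/PkD: peak points are not contained in analytic sets
-/

set_option autoImplicit false

open Set Filter Topology Metric

namespace KP

private theorem pkd_exists_ne {n : ℕ} {h : Cn n → ℂ} {c : Cn n} {r : ℝ}
    (hd : DifferentiableOn ℂ h (ball c r)) (hne : ∃ z ∈ ball c r, h z ≠ 0)
    {O : Set (Cn n)} (hO : IsOpen O) (hOne : O.Nonempty) (hOr : O ⊆ ball c r) :
    ∃ z ∈ O, h z ≠ 0 := by
  by_contra hcon
  push Not at hcon
  obtain ⟨z0, hz0⟩ := hOne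
  have han := Pool.Agent.Lib.Osgood.analyticOnNhd isOpen_ball hd
  have h1 : h =ᶠ[𝓝 z0] 0 := by
    filter_upwards [hO.mem_nhds hz0] with z hz
    exact hcon z hz
  have h2 := han.eqOn_zero_of_preconnected_of_eventuallyEq_zero
    (convex_ball c r).isPreconnected (hOr hz0) h1
  obtain ⟨z, hz, hz'⟩ := hne
  exact hz' (h2 hz)

private theorem nsq_nonneg {n : ℕ} (z : Cn n) : 0 ≤ nsq z :=
  Finset.sum_nonneg (fun _ _ => Complex.normSq_nonneg _)

private theorem continuous_nsq_sub {n : ℕ} (c : Cn n) : Continuous (fun z : Cn n => nsq (z - c)) := by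
  unfold nsq
  have := Complex.continuous_normSq
  fun_prop

theorem tPkD (h1 : S_PkOf) (h2 : S_LvO) (h3 : S_LvH) (h4 : S_D2A) (h5 : S_D2N) : S_PkD := by
  intro n A hA c hc h r hr hd hne r' hr'
  obtain ⟨hcA, hcl, Φ, hΦ, hLv, η, hη, hev⟩ := hc
  have hAne : A.Nonempty := closure_nonempty_iff.mp ⟨c, hcl⟩
  have hn : 0 < n := by
    rcases Nat.eq_zero_or_pos n with rfl | hn
    · exfalso
      obtain ⟨a, ha⟩ := hAne
      have : a = c := Subsingleton.elim _ _
      exact hcA (this ▸ ha)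
    · exact hn
  obtain ⟨r1, hr1, m, hm, hLO⟩ := h2 n Φ c hΦ hLv
  obtain ⟨r2, hr2, hr2'⟩ := Metric.eventually_nhds_iff_ball.mp hev
  have hnn : ∀ v : Cn n, ‖v‖ ^ 2 ≤ nsq v := fun v => (h5 n 0 0 v).2.2.2.1
  -- the radius
  obtain ⟨ρ, hρ, hρr, hρ1, hρ2, hρ'⟩ : ∃ ρ : ℝ, 0 < ρ ∧ ρ < r ∧ ρ < r1 ∧ ρ < r2 ∧ ρ < r' := by
    refine ⟨min (min r r1) (min r2 r') / 2, by positivity, ?_, ?_, ?_, ?_⟩
    · have : min (min r r1) (min r2 r') ≤ r := (min_le_left _ _).trans (min_le_left _ _)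
      linarith
    · have : min (min r r1) (min r2 r') ≤ r1 := (min_le_left _ _).trans (min_le_right _ _)
      linarith
    · have : min (min r r1) (min r2 r') ≤ r2 := (min_le_right _ _).trans (min_le_left _ _)
      linarith
    · have : min (min r r1) (min r2 r') ≤ r' := (min_le_right _ _).trans (min_le_right _ _)
      linarith
  have hsub : ∀ z, z ∈ closedBall c ρ → z ∈ ball c r ∧ z ∈ ball c r1 ∧ z ∈ ball c r2 := by
    intro z hz
    rw [mem_closedBall] at hz
    exact ⟨mem_ball.mpr (hz.trans_lt hρr), mem_ball.mpr (hz.trans_lt hρ1),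
      mem_ball.mpr (hz.trans_lt hρ2)⟩
  have hΦc : ∀ z ∈ closedBall c ρ, ContinuousAt Φ z := fun z hz =>
    (hLO z (hsub z hz).2.1).1.continuousAt
  have hhc : ∀ z ∈ closedBall c ρ, ContinuousAt h z := fun z hz =>
    (hd.continuousOn.continuousAt (isOpen_ball.mem_nhds (hsub z hz).1))
  -- the inequality on the closure
  have hcl2 : ∀ z ∈ closure A, z ∈ closedBall c ρ → Φ z + η * nsq (z - c) ≤ Φ c := by
    intro z hz hz'
    have hne' : NeBot (𝓝[A] z) := mem_closure_iff_nhdsWithin_neBot.mp hz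
    have ht : Tendsto (fun x => Φ x + η * nsq (x - c)) (𝓝[A] z) (𝓝 (Φ z + η * nsq (z - c))) := by
      have h6 : ContinuousAt (fun x => Φ x + η * nsq (x - c)) z :=
        (hΦc z hz').add (continuousAt_const.mul (continuous_nsq_sub c).continuousAt)
      exact h6.tendsto.mono_left nhdsWithin_le_nhds
    refine le_of_tendsto ht ?_
    filter_upwards [self_mem_nhdsWithin,
      mem_nhdsWithin_of_mem_nhds (isOpen_ball.mem_nhds (hsub z hz').2.2)] with x hx hx'
    exact hr2' x hx' hx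
  -- the set X
  set X := closure A ∩ closedBall c ρ with hX
  have hXc : IsCompact X := (isCompact_closedBall c ρ).inter_left isClosed_closure
  set g := η * ρ ^ 2 with hg
  have hgpos : 0 < g := by positivity
  -- the point c1
  obtain ⟨c1, hc1A, hc1ρ, hc1Φ, hc1h⟩ : ∃ c1 ∈ A, c1 ∈ ball c ρ ∧ Φ c - g / 2 < Φ c1 ∧ h c1 ≠ 0 := by
    have h6 : ∀ᶠ z in 𝓝 c, Φ c - g / 2 < Φ z :=
      (hΦ.continuousAt).eventually_const_lt (by linarith)
    obtain ⟨O, hO, hOo, hcO⟩ := _root_.eventually_nhds_iff.mp h6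
    have h7 : (O ∩ ball c ρ ∩ A).Nonempty := by
      rw [_root_.mem_closure_iff] at hcl
      exact hcl (O ∩ ball c ρ) (hOo.inter isOpen_ball) ⟨hcO, mem_ball_self hρ⟩
    obtain ⟨z, ⟨⟨hz1, hz2⟩, hz3⟩, hz4⟩ := pkd_exists_ne hd hne
      ((hOo.inter isOpen_ball).inter hA) h7
      (fun z hz => ball_subset_ball hρr.le hz.1.2)
    exact ⟨z, hz3, hz2, hO z hz1, hz4⟩
  have hc1X : c1 ∈ X := ⟨subset_closure hc1A, ball_subset_closedBall hc1ρ⟩
  -- bound for h
  obtain ⟨H, hH⟩ : ∃ H : ℝ, ∀ z ∈ X, ‖h z‖ ≤ H :=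
    hXc.exists_bound_of_continuousOn (fun z hz => (hhc z hz.2).continuousWithinAt)
  have hh1 : 0 < ‖h c1‖ := norm_pos_iff.mpr hc1h
  have hHpos : 0 < H := hh1.trans_le (hH c1 hc1X)
  -- the factor k
  set k := (H / ‖h c1‖) / (g / 2) with hk
  have hkpos : 0 < k := by positivity
  have hkk : H / ‖h c1‖ < Real.exp (k * (g / 2)) := by
    have e1 : k * (g / 2) = H / ‖h c1‖ := by
      rw [hk]; field_simp
    rw [e1]
    have := Real.add_one_le_exp (H / ‖h c1‖)
    linarith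
  -- the maximum
  set Θ : Cn n → ℝ := fun z => ‖h z‖ * Real.exp (k * Φ z) with hΘ
  have hΘc : ContinuousOn Θ X := by
    intro z hz
    have e1 := (hhc z hz.2).norm
    have e2 := (continuousAt_const (y := k)).mul (hΦc z hz.2)
    exact (e1.mul e2.rexp).continuousWithinAt
  obtain ⟨c', hc'X, hc'max⟩ := hXc.exists_isMaxOn ⟨c1, hc1X⟩ hΘc
  have hΘ1 : 0 < Θ c1 := by positivity
  have hΘc' : Θ c1 ≤ Θ c' := hc'max hc1X
  have hhc' : h c' ≠ 0 := by
    intro h0
    have : Θ c' = 0 := by simp [hΘ, h0]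
    linarith
  have hdist : c' ∈ ball c ρ := by
    rcases (mem_closedBall.mp hc'X.2).lt_or_eq with h6 | h6
    · exact mem_ball.mpr h6
    · exfalso
      have e1 := hcl2 c' hc'X.1 hc'X.2
      have e2 : g ≤ η * nsq (c' - c) := by
        rw [hg]
        have := hnn (c' - c)
        rw [← dist_eq_norm, h6] at this
        exact mul_le_mul_of_nonneg_left this hη.le
      have e3 : Φ c' ≤ Φ c - g := by linarith
      have e4 : Θ c' ≤ H * Real.exp (k * (Φ c - g)) := by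
        rw [hΘ]
        exact mul_le_mul (hH c' hc'X) (Real.exp_le_exp.mpr (mul_le_mul_of_nonneg_left e3 hkpos.le))
          (Real.exp_pos _).le hHpos.le
      have e5 : ‖h c1‖ * Real.exp (k * (Φ c - g / 2)) ≤ Θ c1 := by
        rw [hΘ]
        exact mul_le_mul_of_nonneg_left
          (Real.exp_le_exp.mpr (mul_le_mul_of_nonneg_left hc1Φ.le hkpos.le)) hh1.le
      have e6 : Real.exp (k * (Φ c - g / 2)) = Real.exp (k * (Φ c - g)) * Real.exp (k * (g / 2)) := by
        rw [← Real.exp_add]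
        congr 1
        ring
      have e7 : H * Real.exp (k * (Φ c - g)) < ‖h c1‖ * Real.exp (k * (Φ c - g / 2)) := by
        rw [e6]
        rw [div_lt_iff₀ hh1] at hkk
        have := mul_lt_mul_of_pos_right hkk (Real.exp_pos (k * (Φ c - g)))
        calc H * Real.exp (k * (Φ c - g)) < Real.exp (k * (g / 2)) * ‖h c1‖ * Real.exp (k * (Φ c - g)) :=
              this
          _ = _ := by ring
      linarith
  -- the new function
  have hc'r : c' ∈ ball c r := (hsub c' hc'X.2).1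
  have hc'1 : c' ∈ ball c r1 := (hsub c' hc'X.2).2.1
  obtain ⟨hlog1, hlog2⟩ := (h3 n h c' (ball c r) isOpen_ball hc'r hd).2 hhc'
  have hΦ' := (hLO c' hc'1).1
  set Ψ : Cn n → ℝ := fun z => k * Φ z + 1 * Real.log ‖h z‖ with hΨ
  have hΨd : ContDiffAt ℝ 2 Ψ c' := (contDiffAt_const.mul hΦ').add (contDiffAt_const.mul hlog1)
  have hΨL : ∀ v ≠ 0, 0 < Lv Ψ c' v := by
    intro v hv
    have e1 : Lv Ψ c' v = k * Lv Φ c' v + 1 * Lv (fun z => Real.log ‖h z‖) c' v := by
      unfold Lv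
      rw [hΨ, h4 n Φ _ c' hΦ' hlog1, h4 n Φ _ c' hΦ' hlog1]
      ring
    rw [e1, hlog2 v]
    have e2 := (hLO c' hc'1).2 v
    have e3 : 0 < nsq v := by
      have := hnn v
      have : 0 < ‖v‖ ^ 2 := by
        have := norm_pos_iff.mpr hv
        positivity
      linarith
    have e4 : 0 < Lv Φ c' v := lt_of_lt_of_le (mul_pos hm e3) e2
    have := mul_pos hkpos e4
    linarith
  have hmax : ∀ᶠ z in 𝓝 c', z ∈ A → Ψ z ≤ Ψ c' := by
    have e1 : ∀ᶠ z in 𝓝 c', h z ≠ 0 := (hhc c' hc'X.2).eventually_ne hhc'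
    filter_upwards [e1, isOpen_ball.mem_nhds hdist] with z hz1 hz2 hz3
    have hzX : z ∈ X := ⟨subset_closure hz3, ball_subset_closedBall hz2⟩
    have e2 : Θ z ≤ Θ c' := hc'max hzX
    have e3 : ∀ x, h x ≠ 0 → Real.log (Θ x) = Ψ x := by
      intro x hx
      have : 0 < ‖h x‖ := norm_pos_iff.mpr hx
      rw [hΘ, hΨ]
      simp only
      rw [Real.log_mul this.ne' (Real.exp_pos _).ne', Real.log_exp]
      ring
    have hz4 : 0 < Θ z := by
      have : 0 < ‖h z‖ := norm_pos_iff.mpr hz1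
      positivity
    rw [← e3 z hz1, ← e3 c' hhc']
    exact Real.log_le_log hz4 e2
  exact ⟨c', h1 n A Ψ c' hn hA hΨd hΨL hc'X.1 hmax, ball_subset_ball hρ'.le hdist, hhc'⟩

end KP
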